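import Pool.Agent.R433.MD.HomCount
import Pool.Agent.R433.MD.Comb
import Pool.Agent.H341R2.NF.Model

/-! The primes of `F` above a prime of `K`, and homomorphisms to finite fields. -/

set_option autoImplicit false

namespace Pool.Agent.R433.MD

open NumberField IsDedekindDomain
open Pool.Agent.H921R2.TatePole (nm two_le_nm)
open Pool.Agent.H341R2.EC (aff red)
open Pool.Agent.H341R2 (finite_v card_v)

variable {K : Type} [Field K] [NumberField K]

/-- the prime of `K` below `w` -/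
noncomputable def und {F : Type} [Field F] [NumberField F] [Algebra K F]
    (w : HeightOneSpectrum (𝓞 F)) : HeightOneSpectrum (𝓞 K) where
  asIdeal := w.asIdeal.comap (algebraMap (𝓞 K) (𝓞 F))
  isPrime := w.isPrime.comap _
  ne_bot := by
    obtain ⟨y, hy, hy0⟩ := Submodule.exists_mem_ne_zero_of_ne_bot w.ne_bot
    exact Ideal.comap_ne_bot_of_integral_mem hy0 hy (integral_over (K := K) y)

/-- the primes above `v` -/
abbrev Fib (F : Type) [Field F] [NumberField F] [Algebra K F] (v : HeightOneSpectrum (𝓞 K)) :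
    Type := {w : HeightOneSpectrum (𝓞 F) // und w = v}

variable {F : Type} [Field F] [NumberField F] [Algebra K F]

theorem map_ne_bot (v : HeightOneSpectrum (𝓞 K)) :
    v.asIdeal.map (algebraMap (𝓞 K) (𝓞 F)) ≠ ⊥ := by
  intro h
  exact v.ne_bot ((Ideal.map_eq_bot_iff_of_injective
    (RingOfIntegers.algebraMap.injective K F)).1 h)

theorem fib_le {v : HeightOneSpectrum (𝓞 K)} (w : Fib F v) :
    v.asIdeal = w.1.asIdeal.comap (algebraMap (𝓞 K) (𝓞 F)) := by
  rw [← congrArg HeightOneSpectrum.asIdeal w.2]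
  rfl

instance finite_fib (v : HeightOneSpectrum (𝓞 K)) : Finite (Fib F v) := by
  have h1 := Ideal.finite_factors (map_ne_bot (F := F) v)
  have h2 : {w : HeightOneSpectrum (𝓞 F) | und w = v} ⊆
      {w : HeightOneSpectrum (𝓞 F) | w.asIdeal ∣ v.asIdeal.map (algebraMap (𝓞 K) (𝓞 F))} := by
    intro w hw
    rw [Set.mem_ofPred_eq, Ideal.dvd_iff_le, Ideal.map_le_iff_le_comap]
    exact (fib_le ⟨w, hw⟩).le
  exact (h1.subset h2).to_subtype

noncomputable instance fintype_fib (v : HeightOneSpectrum (𝓞 K)) : Fintype (Fib F v) :=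
  Fintype.ofFinite _

noncomputable instance field_v (v : HeightOneSpectrum (𝓞 K)) : Field (𝓞 K ⧸ v.asIdeal) :=
  haveI := v.isMaximal
  Ideal.Quotient.field _

instance fin_v (v : HeightOneSpectrum (𝓞 K)) : Finite (𝓞 K ⧸ v.asIdeal) := finite_v v

noncomputable instance algFib {v : HeightOneSpectrum (𝓞 K)} (w : Fib F v) :
    Algebra (𝓞 K ⧸ v.asIdeal) (𝓞 F ⧸ w.1.asIdeal) :=
  (Ideal.quotientMap w.1.asIdeal (algebraMap (𝓞 K) (𝓞 F)) (fib_le w).le).toAlgebra

theorem algFib_mk {v : HeightOneSpectrum (𝓞 K)} (w : Fib F v) (x : 𝓞 K) :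
    algebraMap (𝓞 K ⧸ v.asIdeal) (𝓞 F ⧸ w.1.asIdeal) (Ideal.Quotient.mk v.asIdeal x) =
      Ideal.Quotient.mk w.1.asIdeal (algebraMap (𝓞 K) (𝓞 F) x) := rfl

/-- the residue degree -/
noncomputable def fdeg {v : HeightOneSpectrum (𝓞 K)} (w : Fib F v) : ℕ :=
  Module.finrank (𝓞 K ⧸ v.asIdeal) (𝓞 F ⧸ w.1.asIdeal)

theorem fdeg_pos {v : HeightOneSpectrum (𝓞 K)} (w : Fib F v) : 0 < fdeg w := by
  have : Module.Finite (𝓞 K ⧸ v.asIdeal) (𝓞 F ⧸ w.1.asIdeal) := Module.Finite.of_finite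
  exact Module.finrank_pos

theorem nm_fib {v : HeightOneSpectrum (𝓞 K)} (w : Fib F v) : nm w.1 = nm v ^ fdeg w := by
  have h1 : Nat.card (𝓞 F ⧸ w.1.asIdeal) = Nat.card (𝓞 K ⧸ v.asIdeal) ^ fdeg w :=
    Module.natCard_eq_pow_finrank
  exact h1

section equiv

variable (v : HeightOneSpectrum (𝓞 K)) (k : Type) [Field k] [Algebra (𝓞 K ⧸ v.asIdeal) k]

/-- the homomorphism of `𝓞 K` -/
noncomputable def base : 𝓞 K →+* k :=
  (algebraMap (𝓞 K ⧸ v.asIdeal) k).comp (Ideal.Quotient.mk v.asIdeal)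

variable {v k}

theorem comap_kerFib (ψ : Over F (base v k)) :
    (RingHom.ker ψ.1).comap (algebraMap (𝓞 K) (𝓞 F)) = v.asIdeal := by
  rw [RingHom.comap_ker, ψ.2]
  ext x
  rw [RingHom.mem_ker, base, RingHom.comp_apply,
    map_eq_zero_iff _ (algebraMap (𝓞 K ⧸ v.asIdeal) k).injective, Ideal.Quotient.eq_zero_iff_mem]

/-- the kernel -/
noncomputable def kerFib (ψ : Over F (base v k)) : Fib F v :=
  ⟨⟨RingHom.ker ψ.1, RingHom.ker_isPrime ψ.1, by
      intro h
      have h1 := comap_kerFib ψ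
      rw [h] at h1
      apply v.ne_bot
      rw [← h1]
      exact Ideal.comap_bot_of_injective _ (RingOfIntegers.algebraMap.injective K F)⟩,
    HeightOneSpectrum.ext (comap_kerFib ψ)⟩

/-- homomorphisms with a given kernel -/
noncomputable def kerEquiv (w : Fib F v) :
    {ψ : Over F (base v k) // kerFib ψ = w} ≃ ((𝓞 F ⧸ w.1.asIdeal) →ₐ[𝓞 K ⧸ v.asIdeal] k) where
  toFun ψ :=
    { toRingHom := Ideal.Quotient.lift w.1.asIdeal ψ.1.1 (fun a ha => by
        rw [← ψ.2] at ha
        exact ha)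
      commutes' := by
        intro x
        obtain ⟨y, rfl⟩ := Ideal.Quotient.mk_surjective x
        exact RingHom.congr_fun ψ.1.2 y }
  invFun χ := ⟨⟨(χ : (𝓞 F ⧸ w.1.asIdeal) →+* k).comp (Ideal.Quotient.mk w.1.asIdeal),
      RingHom.ext fun y => χ.commutes (Ideal.Quotient.mk v.asIdeal y)⟩, by
      apply Subtype.ext
      apply HeightOneSpectrum.ext
      change RingHom.ker ((χ : (𝓞 F ⧸ w.1.asIdeal) →+* k).comp
        (Ideal.Quotient.mk w.1.asIdeal)) = w.1.asIdeal
      ext x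
      rw [RingHom.mem_ker, RingHom.comp_apply,
        map_eq_zero_iff _ (χ : (𝓞 F ⧸ w.1.asIdeal) →+* k).injective,
        Ideal.Quotient.eq_zero_iff_mem]⟩
  left_inv ψ := rfl
  right_inv χ := by
    apply AlgHom.ext
    intro x
    obtain ⟨y, rfl⟩ := Ideal.Quotient.mk_surjective x
    rfl

theorem nh_eq [Finite k] :
    nh F (base v k) = ∑ w : Fib F v,
      if fdeg w ∣ Module.finrank (𝓞 K ⧸ v.asIdeal) k then fdeg w else 0 := by
  classical
  unfold nh
  rw [Nat.card_congr (Equiv.sigmaFiberEquiv (kerFib (F := F) (v := v) (k := k))).symm]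
  have hfin : ∀ w : Fib F v, Finite ((𝓞 F ⧸ w.1.asIdeal) →ₐ[𝓞 K ⧸ v.asIdeal] k) := fun w =>
    Finite.of_injective (fun χ => (χ : (𝓞 F ⧸ w.1.asIdeal) → k)) DFunLike.coe_injective
  have hfin' : ∀ w : Fib F v, Finite {ψ : Over F (base v k) // kerFib ψ = w} := fun w =>
    Finite.of_equiv _ (kerEquiv w).symm
  rw [Nat.card_sigma]
  refine Finset.sum_congr rfl fun w _ => ?_
  rw [Nat.card_congr (kerEquiv w), card_algHom]
  rfl

end equiv

/-! ### Local factors -/

section aff

variable {k k' : Type} [Field k] [Field k']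

theorem aff_equiv (e : k ≃+* k') (V : WeierstrassCurve k) :
    aff (V.map (e : k →+* k')) = aff V := by
  unfold aff
  refine Nat.card_congr ?_
  refine
    { toFun := fun q => ⟨(e.symm q.1.1, e.symm q.1.2), ?_⟩
      invFun := fun q => ⟨(e q.1.1, e q.1.2), ?_⟩
      left_inv := fun q => by simp
      right_inv := fun q => by simp }
  · have h := congrArg e.symm q.2
    simpa using h
  · have h := congrArg e q.2
    simpa using h

end aff

end Pool.Agent.R433.MD
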