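import Pool.Agent.R433.MD.HomCount

/-! Homomorphisms of rings of integers of Galois extensions to finite fields. -/

set_option autoImplicit false

namespace Pool.Agent.R433.MD

open NumberField Polynomial

section
variable {F L Ω : Type} [Field F] [NumberField F] [Field L] [NumberField L] [Algebra F L] [Field Ω]

/-- homomorphisms which agree below are conjugate on every element -/
theorem exists_conj [IsGalois F L] {Ψ Ψ' : 𝓞 L →+* Ω}
    (h : Ψ.comp (algebraMap (𝓞 F) (𝓞 L)) = Ψ'.comp (algebraMap (𝓞 F) (𝓞 L))) (x : 𝓞 L) :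
    ∃ σ : Gal(L/F), Ψ' x = Ψ (σ • x) := by
  classical
  obtain ⟨P, hP⟩ := Algebra.IsInvariant.charpoly_mem_lifts (𝓞 F) (𝓞 L) Gal(L/F) x
  have hP' : P.map (algebraMap (𝓞 F) (𝓞 L)) = MulSemiringAction.charpoly Gal(L/F) x := hP
  have h1 : (MulSemiringAction.charpoly Gal(L/F) x).map Ψ =
      (MulSemiringAction.charpoly Gal(L/F) x).map Ψ' := by
    rw [← hP', Polynomial.map_map, Polynomial.map_map, h]
  have h2 : ((MulSemiringAction.charpoly Gal(L/F) x).map Ψ).eval (Ψ' x) = 0 := by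
    rw [h1, eval_map, eval₂_hom, MulSemiringAction.eval_charpoly, map_zero]
  rw [MulSemiringAction.charpoly_eq, Polynomial.map_prod, eval_prod, Finset.prod_eq_zero_iff] at h2
  obtain ⟨σ, -, hσ⟩ := h2
  refine ⟨σ, ?_⟩
  rw [Polynomial.map_sub, map_X, map_C, eval_sub, eval_X, eval_C, sub_eq_zero] at hσ
  exact hσ

/-- homomorphisms to algebraically closed fields extend -/
theorem exists_extend [IsAlgClosed Ω] (ψ : 𝓞 F →+* Ω) :
    ∃ Ψ : 𝓞 L →+* Ω, Ψ.comp (algebraMap (𝓞 F) (𝓞 L)) = ψ := by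
  set P : Ideal (𝓞 F) := RingHom.ker ψ with hP
  have hPp : P.IsPrime := RingHom.ker_isPrime ψ
  obtain ⟨Q, -, hQp, hQ⟩ := Ideal.exists_ideal_over_prime_of_isIntegral (S := 𝓞 L) P ⊥ (by
    rw [← RingHom.ker_eq_comap_bot, (RingHom.injective_iff_ker_eq_bot _).1
      (FaithfulSMul.algebraMap_injective (𝓞 F) (𝓞 L))]
    exact bot_le)
  have hlies : Q.LiesOver P := ⟨hQ.symm⟩
  let _ : Algebra (𝓞 F ⧸ P) Ω := (RingHom.kerLift ψ).toAlgebra
  have hinj : Function.Injective (algebraMap (𝓞 F ⧸ P) Ω) := RingHom.kerLift_injective ψ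
  have t1 : Module.IsTorsionFree (𝓞 F ⧸ P) Ω := by
    rw [Module.isTorsionFree_iff_algebraMap_injective]
    exact hinj
  have t2 : Module.IsTorsionFree (𝓞 F ⧸ P) (𝓞 L ⧸ Q) := by
    rw [Module.isTorsionFree_iff_algebraMap_injective]
    exact FaithfulSMul.algebraMap_injective _ _
  have t3 : Algebra.IsAlgebraic (𝓞 F ⧸ P) (𝓞 L ⧸ Q) := inferInstance
  let χ : (𝓞 L ⧸ Q) →ₐ[𝓞 F ⧸ P] Ω := IsAlgClosed.lift
  refine ⟨χ.toRingHom.comp (Ideal.Quotient.mk Q), ?_⟩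
  ext x
  have h1 : χ (algebraMap (𝓞 F ⧸ P) (𝓞 L ⧸ Q) (Ideal.Quotient.mk P x)) =
      algebraMap (𝓞 F ⧸ P) Ω (Ideal.Quotient.mk P x) := χ.commutes _
  exact h1

end

/-- integral generators -/
theorem exists_gen (K L : Type) [Field K] [NumberField K] [Field L] [NumberField L] [Algebra K L] :
    ∃ (B : PowerBasis K L) (α : 𝓞 L), (α : L) = B.gen := by
  let B0 := Field.powerBasisOfFiniteOfSeparable K L
  have halg : IsAlgebraic ℤ B0.gen :=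
    (IsFractionRing.isAlgebraic_iff ℤ ℚ L).2 (Algebra.IsAlgebraic.isAlgebraic (R := ℚ) B0.gen)
  obtain ⟨y, hy0, hy⟩ := halg.exists_integral_multiple
  have hint : IsIntegral K (y • B0.gen) := IsIntegral.tower_top hy
  have hadj : Algebra.adjoin K {y • B0.gen} = ⊤ := by
    rw [eq_top_iff, ← B0.adjoin_gen_eq_top]
    refine Algebra.adjoin_le ?_
    rw [Set.singleton_subset_iff]
    have h1 : B0.gen = ((y : K)⁻¹) • (y • B0.gen) := by
      have hy' : (y : K) ≠ 0 := Int.cast_ne_zero.2 hy0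
      rw [← Int.cast_smul_eq_zsmul K, smul_smul, inv_mul_cancel₀ hy', one_smul]
    have h2 : ((y : K)⁻¹) • (y • B0.gen) ∈ Algebra.adjoin K {y • B0.gen} :=
      Subalgebra.smul_mem _ (Algebra.self_mem_adjoin_singleton K _) _
    rw [← h1] at h2
    exact h2
  exact ⟨PowerBasis.ofAdjoinEqTop hint hadj, ⟨y • B0.gen, hy⟩, rfl⟩

section
variable {K L : Type} [Field K] [NumberField K] [Field L] [NumberField L] [Algebra K L]
  {Ω : Type} [Field Ω]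

/-- composition with an automorphism -/
noncomputable def tw (Ψ : 𝓞 L →+* Ω) (σ : Gal(L/K)) : 𝓞 L →+* Ω :=
  Ψ.comp (MulSemiringAction.toRingHom Gal(L/K) (𝓞 L) σ)

theorem tw_apply (Ψ : 𝓞 L →+* Ω) (σ : Gal(L/K)) (x : 𝓞 L) : tw Ψ σ x = Ψ (σ • x) := rfl

theorem tw_tw (Ψ : 𝓞 L →+* Ω) (σ τ : Gal(L/K)) : tw (tw Ψ σ) τ = tw Ψ (σ * τ) := by
  ext x
  rw [tw_apply, tw_apply, tw_apply, mul_smul]

theorem smul_below (σ : Gal(L/K)) (x : 𝓞 K) :
    σ • (algebraMap (𝓞 K) (𝓞 L) x) = algebraMap (𝓞 K) (𝓞 L) x := by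
  apply RingOfIntegers.coe_injective (K := L)
  change σ (algebraMap (𝓞 L) L (algebraMap (𝓞 K) (𝓞 L) x)) =
    algebraMap (𝓞 L) L (algebraMap (𝓞 K) (𝓞 L) x)
  rw [← IsScalarTower.algebraMap_apply, IsScalarTower.algebraMap_apply (𝓞 K) K L, σ.commutes]

theorem tw_below (Ψ : 𝓞 L →+* Ω) (σ : Gal(L/K)) :
    (tw Ψ σ).comp (algebraMap (𝓞 K) (𝓞 L)) = Ψ.comp (algebraMap (𝓞 K) (𝓞 L)) := by
  ext x
  change Ψ (σ • (algebraMap (𝓞 K) (𝓞 L) x)) = Ψ (algebraMap (𝓞 K) (𝓞 L) x)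
  rw [smul_below]

theorem smul_fixed (F : IntermediateField K L) {σ : Gal(L/K)} (hσ : σ ∈ F.fixingSubgroup)
    (x : 𝓞 F) : σ • (algebraMap (𝓞 F) (𝓞 L) x) = algebraMap (𝓞 F) (𝓞 L) x := by
  apply RingOfIntegers.coe_injective (K := L)
  exact hσ ⟨_, (x : F).2⟩

/-- homomorphisms with the same value at a generator -/
theorem determined {α : 𝓞 L} {D : 𝓞 K}
    (hD : ∀ z : 𝓞 L, ∃ g : (𝓞 K)[X], aeval α g = algebraMap (𝓞 K) (𝓞 L) D * z)
    {Ψ Ψ' : 𝓞 L →+* Ω}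
    (h : Ψ.comp (algebraMap (𝓞 K) (𝓞 L)) = Ψ'.comp (algebraMap (𝓞 K) (𝓞 L)))
    (h0 : Ψ (algebraMap (𝓞 K) (𝓞 L) D) ≠ 0) (hα : Ψ α = Ψ' α) : Ψ = Ψ' := by
  ext z
  obtain ⟨g, hg⟩ := hD z
  have h1 : Ψ (aeval α g) = Ψ' (aeval α g) := by
    rw [aeval_def, hom_eval₂, hom_eval₂, h, hα]
  have h2 : Ψ (algebraMap (𝓞 K) (𝓞 L) D) = Ψ' (algebraMap (𝓞 K) (𝓞 L) D) := RingHom.congr_fun h D
  rw [hg, map_mul, map_mul, ← h2] at h1
  exact mul_left_cancel₀ h0 h1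

end

/-- **Frobenius elements.** -/
theorem frob_count (K L : Type) [Field K] [NumberField K] [Field L] [NumberField L] [Algebra K L]
    [IsGalois K L] :
    ∃ D : 𝓞 K, D ≠ 0 ∧ ∀ (k : Type) [Field k] [Finite k] (φ : 𝓞 K →+* k), φ D ≠ 0 →
      ∃ g : Gal(L/K), ∀ F : IntermediateField K L,
        nh F φ = Nat.card {c : Gal(L/K) ⧸ F.fixingSubgroup // g • c = c} := by
  classical
  obtain ⟨B, α, hα⟩ := exists_gen K L
  obtain ⟨D1, hD1, hg⟩ := exists_poly B hα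
  -- the conjugates of the generator are different
  have hinj : ∀ σ : Gal(L/K), σ • α = α → σ = 1 := by
    intro σ h
    have h1 : σ (α : L) = (α : L) := congrArg (algebraMap (𝓞 L) L) h
    rw [hα] at h1
    have h2 : (σ : L →ₐ[K] L) = AlgHom.id K L := B.algHom_ext h1
    ext x
    exact AlgHom.congr_fun h2 x
  set δ : 𝓞 L := ∏ σ ∈ (Finset.univ.filter fun σ : Gal(L/K) => σ ≠ 1), (σ • α - α) with hδ
  have hδ0 : δ ≠ 0 := Finset.prod_ne_zero_iff.2 fun σ hσ h =>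
    (Finset.mem_filter.1 hσ).2 (hinj σ (sub_eq_zero.1 h))
  obtain ⟨D2, hD2, hdvd⟩ := exists_below (K := K) hδ0
  refine ⟨D1 * D2, mul_ne_zero hD1 hD2, fun k _ _ φ hφ => ?_⟩
  rw [map_mul] at hφ
  have hφ1 := left_ne_zero_of_mul hφ
  have hφ2 := right_ne_zero_of_mul hφ
  let Ω := AlgebraicClosure k
  let φ' : 𝓞 K →+* Ω := (algebraMap k Ω).comp φ
  have hφ' : ∀ x, φ x ≠ 0 → φ' x ≠ 0 := fun x hx h =>
    hx ((map_eq_zero_iff _ (algebraMap k Ω).injective).1 h)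
  -- the two basic facts
  have hdet : ∀ Ψ Ψ' : 𝓞 L →+* Ω, Ψ.comp (algebraMap (𝓞 K) (𝓞 L)) = φ' →
      Ψ'.comp (algebraMap (𝓞 K) (𝓞 L)) = φ' → Ψ α = Ψ' α → Ψ = Ψ' := by
    intro Ψ Ψ' h h' he
    refine determined hg (h.trans h'.symm) ?_ he
    have h1 : Ψ (algebraMap (𝓞 K) (𝓞 L) D1) = φ' D1 := RingHom.congr_fun h D1
    rw [h1]
    exact hφ' _ hφ1
  have hfree : ∀ (Ψ : 𝓞 L →+* Ω), Ψ.comp (algebraMap (𝓞 K) (𝓞 L)) = φ' → ∀ σ : Gal(L/K),
      Ψ (σ • α) = Ψ α → σ = 1 := by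
    intro Ψ h σ he
    by_contra hσ
    have h1 : Ψ (algebraMap (𝓞 K) (𝓞 L) D2) = φ' D2 := RingHom.congr_fun h D2
    obtain ⟨c, hc⟩ := hdvd
    have h2 : (σ • α - α) ∣ δ :=
      Finset.dvd_prod_of_mem _ (Finset.mem_filter.2 ⟨Finset.mem_univ σ, hσ⟩)
    obtain ⟨e, he'⟩ := h2
    rw [hc, he', map_mul, map_mul, map_sub, he, sub_self, zero_mul, zero_mul] at h1
    exact hφ' _ hφ2 h1.symm
  have hfree' : ∀ (Ψ : 𝓞 L →+* Ω), Ψ.comp (algebraMap (𝓞 K) (𝓞 L)) = φ' → ∀ σ τ : Gal(L/K),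
      tw Ψ σ = tw Ψ τ → σ = τ := by
    intro Ψ h σ τ he
    have h1 := hfree (tw Ψ τ) ((tw_below Ψ τ).trans h) (τ⁻¹ * σ) (by
      rw [tw_apply, tw_apply, smul_smul, mul_inv_cancel_left, ← tw_apply Ψ σ, he, tw_apply])
    rw [inv_mul_eq_one] at h1
    exact h1.symm
  -- a base point and Frobenius
  obtain ⟨Ψ0, hΨ0⟩ := exists_extend (F := K) (L := L) φ'
  let _ : Fintype k := Fintype.ofFinite k
  let Fr : Ω →+* Ω := (FiniteField.frobeniusAlgHom k Ω).toRingHom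
  have hFr : ∀ x : Ω, Fr x = x ^ Fintype.card k := fun x => rfl
  have hfix : ∀ x : Ω, Fr x = x ↔ x ∈ Set.range (algebraMap k Ω) := by
    intro x
    rw [hFr]
    constructor
    · intro hx
      have h1 : x ∈ ((X ^ Fintype.card k - X : k[X]).map (algebraMap k Ω)).roots := by
        rw [mem_roots', Polynomial.map_sub, Polynomial.map_pow, map_X]
        refine ⟨FiniteField.X_pow_card_sub_X_ne_zero Ω Fintype.one_lt_card, ?_⟩
        rw [IsRoot.def, eval_sub, eval_pow, eval_X, hx, sub_self]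
      have h2 : ((X ^ Fintype.card k - X : k[X]).map (algebraMap k Ω)).roots =
          (X ^ Fintype.card k - X : k[X]).roots.map (algebraMap k Ω) := by
        refine (roots_map_of_injective_of_card_eq_natDegree (algebraMap k Ω).injective ?_).symm
        rw [FiniteField.roots_X_pow_card_sub_X, Finset.card_val, Finset.card_univ,
          FiniteField.X_pow_card_sub_X_natDegree_eq k Fintype.one_lt_card]
      rw [h2, Multiset.mem_map] at h1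
      obtain ⟨y, -, hy⟩ := h1
      exact ⟨y, hy⟩
    · rintro ⟨y, rfl⟩
      rw [← map_pow, FiniteField.pow_card]
  have hFrφ : Fr.comp φ' = φ' := by
    ext x
    exact (hfix _).2 ⟨φ x, rfl⟩
  have htrans : ∀ (F : IntermediateField K L) (Ψ Ψ' : 𝓞 L →+* Ω),
      Ψ.comp (algebraMap (𝓞 K) (𝓞 L)) = φ' → Ψ'.comp (algebraMap (𝓞 K) (𝓞 L)) = φ' →
      Ψ.comp (algebraMap (𝓞 F) (𝓞 L)) = Ψ'.comp (algebraMap (𝓞 F) (𝓞 L)) →
      ∃ σ : Gal(L/K), σ ∈ F.fixingSubgroup ∧ Ψ' = tw Ψ σ := by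
    intro F Ψ Ψ' h h' he
    obtain ⟨σ, hσ⟩ := exists_conj he α
    refine ⟨F.fixingSubgroupEquiv.symm σ, (F.fixingSubgroupEquiv.symm σ).2, ?_⟩
    refine hdet _ _ h' ((tw_below Ψ _).trans h) ?_
    rw [hσ, tw_apply]
    rfl
  obtain ⟨g, hgΨ⟩ : ∃ g : Gal(L/K), Fr.comp Ψ0 = tw Ψ0 g := by
    have h1 : (Fr.comp Ψ0).comp (algebraMap (𝓞 K) (𝓞 L)) = φ' := by
      rw [RingHom.comp_assoc, hΨ0, hFrφ]
    obtain ⟨σ, hσ⟩ := exists_conj (F := K) (hΨ0.trans h1.symm) α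
    exact ⟨σ, hdet _ _ h1 ((tw_below Ψ0 _).trans hΨ0) hσ⟩
  refine ⟨g, fun F => ?_⟩
  set ι := algebraMap (𝓞 F) (𝓞 L) with hι
  -- cosets
  have hcoset : ∀ σ τ : Gal(L/K), (tw Ψ0 σ).comp ι = (tw Ψ0 τ).comp ι ↔
      (σ : Gal(L/K) ⧸ F.fixingSubgroup) = τ := by
    intro σ τ
    rw [QuotientGroup.eq]
    constructor
    · intro h
      obtain ⟨h1, hh1, hh2⟩ := htrans F _ _ ((tw_below Ψ0 σ).trans hΨ0)
        ((tw_below Ψ0 τ).trans hΨ0) h
      rw [tw_tw] at hh2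
      rw [hfree' Ψ0 hΨ0 _ _ hh2, inv_mul_cancel_left]
      exact hh1
    · intro h
      ext x
      have h1 := smul_fixed F h x
      rw [RingHom.comp_apply, RingHom.comp_apply, tw_apply, tw_apply]
      conv_lhs => rw [← h1, smul_smul, mul_inv_cancel_left]
  have hFrtw : ∀ σ : Gal(L/K), tw Ψ0 (g * σ) = Fr.comp (tw Ψ0 σ) := by
    intro σ
    rw [← tw_tw, ← hgΨ]
    rfl
  have hbelow : ι.comp (algebraMap (𝓞 K) (𝓞 F)) = algebraMap (𝓞 K) (𝓞 L) :=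
    (IsScalarTower.algebraMap_eq (𝓞 K) (𝓞 F) (𝓞 L)).symm
  have hex : ∀ ψ : Over F φ, ∃ σ : Gal(L/K), (tw Ψ0 σ).comp ι = (algebraMap k Ω).comp ψ.1 := by
    intro ψ
    obtain ⟨Ψ, hΨ⟩ := exists_extend (F := F) (L := L) ((algebraMap k Ω).comp ψ.1)
    have h1 : Ψ.comp (algebraMap (𝓞 K) (𝓞 L)) = φ' := by
      rw [← hbelow, ← RingHom.comp_assoc, hΨ, RingHom.comp_assoc, ψ.2]
    obtain ⟨σ, hσ⟩ := exists_conj (F := K) (hΨ0.trans h1.symm) α
    have h2 : Ψ = tw Ψ0 σ := hdet _ _ h1 ((tw_below Ψ0 _).trans hΨ0) hσ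
    exact ⟨σ, by rw [← h2]; exact hΨ⟩
  choose s hs using hex
  have hsf : ∀ ψ, g • (s ψ : Gal(L/K) ⧸ F.fixingSubgroup) = (s ψ : Gal(L/K) ⧸ F.fixingSubgroup) := by
    intro ψ
    change ((g * s ψ : Gal(L/K)) : Gal(L/K) ⧸ F.fixingSubgroup) = _
    rw [← hcoset, hFrtw, RingHom.comp_assoc, hs]
    ext x
    exact (hfix _).2 ⟨ψ.1 x, rfl⟩
  refine Nat.card_congr (Equiv.ofBijective
    (fun ψ => ⟨(s ψ : Gal(L/K) ⧸ F.fixingSubgroup), hsf ψ⟩) ⟨?_, ?_⟩)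
  · intro ψ ψ' h
    have h1 : (s ψ : Gal(L/K) ⧸ F.fixingSubgroup) = s ψ' := congrArg Subtype.val h
    rw [← hcoset, hs, hs] at h1
    apply Subtype.ext
    ext x
    exact (algebraMap k Ω).injective (RingHom.congr_fun h1 x)
  · rintro ⟨c, hc⟩
    obtain ⟨σ, rfl⟩ := QuotientGroup.mk_surjective c
    have h1 : ((g * σ : Gal(L/K)) : Gal(L/K) ⧸ F.fixingSubgroup) = σ := hc
    rw [← hcoset, hFrtw] at h1
    have h2 : ∀ x, (tw Ψ0 σ).comp ι x ∈ (algebraMap k Ω).range := by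
      intro x
      have h3 := RingHom.congr_fun h1 x
      exact (hfix _).1 h3
    let e : k ≃+* (algebraMap k Ω).range := RingEquiv.ofBijective (algebraMap k Ω).rangeRestrict
      ⟨fun a b hab => (algebraMap k Ω).injective (congrArg Subtype.val hab),
        (algebraMap k Ω).rangeRestrict_surjective⟩
    let ψ : 𝓞 F →+* k := e.symm.toRingHom.comp (((tw Ψ0 σ).comp ι).codRestrict _ h2)
    have h4 : (algebraMap k Ω).comp ψ = (tw Ψ0 σ).comp ι := by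
      ext x
      have h5 : e (ψ x) = ⟨(tw Ψ0 σ).comp ι x, h2 x⟩ := e.apply_symm_apply _
      exact congrArg Subtype.val h5
    have h6 : ψ.comp (algebraMap (𝓞 K) (𝓞 F)) = φ := by
      ext x
      apply (algebraMap k Ω).injective
      have h7 : (algebraMap k Ω).comp ψ (algebraMap (𝓞 K) (𝓞 F) x) =
          (tw Ψ0 σ) (ι (algebraMap (𝓞 K) (𝓞 F) x)) := by rw [h4]; rfl
      have h8 : ι (algebraMap (𝓞 K) (𝓞 F) x) = algebraMap (𝓞 K) (𝓞 L) x :=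
        RingHom.congr_fun hbelow x
      rw [h8] at h7
      have h9 : tw Ψ0 σ (algebraMap (𝓞 K) (𝓞 L) x) = φ' x :=
        RingHom.congr_fun ((tw_below Ψ0 σ).trans hΨ0) x
      exact h7.trans h9
    refine ⟨⟨ψ, h6⟩, Subtype.ext ?_⟩
    change ((s ⟨ψ, h6⟩ : Gal(L/K)) : Gal(L/K) ⧸ F.fixingSubgroup) = σ
    rw [← hcoset, hs, ← h4]

end Pool.Agent.R433.MD
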