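import Pool.Agent.R433.MD.Hyper
import Pool.Agent.R433.MD.Torsor
import Pool.Agent.R433.MD.Descent
import Pool.Agent.R433.MD.Local

/-! Relations between the L-series over the intermediate fields of a Galois extension. -/

set_option autoImplicit false

namespace Pool.Agent.R433.MD

open NumberField IsDedekindDomain
open Pool.Agent.H341R2.EC

section
variable {K L : Type} [Field K] [NumberField K] [Field L] [NumberField L] [Algebra K L]
  [IsGalois K L]

/-- relations of permutation characters give relations of L-series -/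
theorem gal_rel (S : Finset (IntermediateField K L)) (m : ℕ) (n : IntermediateField K L → ℤ)
    (h : ∀ g : Gal(L/K), ∑ F ∈ S, n F * fx F.fixingSubgroup g = m)
    (E : WeierstrassCurve K) (hE : E.IsElliptic)
    (V0 : HeightOneSpectrum (𝓞 K) → WeierstrassCurve (𝓞 K)) (hV0 : ∀ v, IsMinAt E v (V0 v))
    (VF : ∀ F : IntermediateField K L, HeightOneSpectrum (𝓞 F) → WeierstrassCurve (𝓞 F))
    (hVF : ∀ (F : IntermediateField K L) w, IsMinAt (E.map (algebraMap K F)) w (VF F w)) :
    ∃ R : ℂ → ℂ, MeromorphicOn R Set.univ ∧ ∀ s : ℂ, 3 / 2 < s.re → R s ≠ 0 ∧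
      LL V0 s ^ m = R s * ∏ F ∈ S, LL (VF F) s ^ n F := by
  classical
  obtain ⟨D, hD0, hD⟩ := frob_count K L
  let X : Option S → Ext K := fun i =>
    match i with
    | none => Ext.self K
    | some F => ⟨F.1⟩
  let a : Option S → ℕ := fun i =>
    match i with
    | none => 0
    | some F => (n F.1).toNat
  let b : Option S → ℕ := fun i =>
    match i with
    | none => m
    | some F => (-n F.1).toNat
  let V : ∀ i, HeightOneSpectrum (𝓞 (X i).F) → WeierstrassCurve (𝓞 (X i).F) := fun i =>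
    match i with
    | none => V0
    | some F => VF F.1
  have hV : ∀ i w, IsMinAt (E.map (algebraMap K (X i).F)) w (V i w) := by
    rintro (_ | F)
    · intro w
      have e : E.map (algebraMap K (Ext.self K).F) = E := E.map_id
      change IsMinAt (E.map (algebraMap K (Ext.self K).F)) w (V0 w)
      rw [e]
      exact hV0 w
    · exact hVF F.1
  obtain ⟨R, hR, hRL⟩ := relation (fun i => (X i).F) a b hD0 (by
    intro k _ _ φ hφ
    obtain ⟨g, hg⟩ := hD k φ hφ
    simp only [Fintype.sum_option]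
    have h2 := (nh_self K φ).2
    have h3 : nh (X none).F φ = 1 := h2
    have h4 : ∀ F : S, nh (X (some F)).F φ =
        Nat.card {c : Gal(L/K) ⧸ F.1.fixingSubgroup // g • c = c} := fun F => hg F.1
    simp only [a, b, zero_add, h3, mul_one, h4]
    have h5 := h g
    rw [← Finset.sum_coe_sort S (fun F => n F * fx F.fixingSubgroup g)] at h5
    have h6 : ((∑ F : S, (n F.1).toNat * Nat.card {c : Gal(L/K) ⧸ F.1.fixingSubgroup // g • c = c}
        : ℕ) : ℤ) = ((m + ∑ F : S, (-n F.1).toNat *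
        Nat.card {c : Gal(L/K) ⧸ F.1.fixingSubgroup // g • c = c} : ℕ) : ℤ) := by
      push_cast
      rw [← h5, ← Finset.sum_add_distrib]
      refine Finset.sum_congr rfl fun F _ => ?_
      have h7 := Int.toNat_sub_toNat_neg (n F.1)
      rw [fx]
      linear_combination (Nat.card {c : Gal(L/K) ⧸ F.1.fixingSubgroup // g • c = c} : ℤ) * h7
    exact_mod_cast h6) E hE V hV
  refine ⟨fun s => (R s)⁻¹, hR.fun_inv, fun s hs => ?_⟩
  obtain ⟨h1, h2⟩ := hRL s hs
  refine ⟨inv_ne_zero h1, ?_⟩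
  simp only [Fintype.prod_option] at h2
  have h3 : LL V0 s ^ 0 * ∏ F : S, LL (VF F.1) s ^ (n F.1).toNat =
      R s * (LL V0 s ^ m * ∏ F : S, LL (VF F.1) s ^ (-n F.1).toNat) := h2
  have hne : ∀ F : IntermediateField K L, LL (VF F) s ≠ 0 := fun F =>
    LL_ne_zero inferInstance (hVF F) hs
  rw [pow_zero, one_mul] at h3
  rw [← Finset.prod_coe_sort S (fun F => LL (VF F) s ^ n F)]
  have h4 : ∏ F : S, LL (VF F.1) s ^ n F.1 =
      (∏ F : S, LL (VF F.1) s ^ (n F.1).toNat) / ∏ F : S, LL (VF F.1) s ^ (-n F.1).toNat := by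
    rw [← Finset.prod_div_distrib]
    refine Finset.prod_congr rfl fun F _ => ?_
    conv_lhs => rw [← Int.toNat_sub_toNat_neg (n F.1)]
    rw [zpow_sub₀ (hne _), zpow_natCast, zpow_natCast]
  have h5 : ∏ F : S, LL (VF F.1) s ^ (-n F.1).toNat ≠ 0 :=
    Finset.prod_ne_zero_iff.2 fun F _ => pow_ne_zero _ (hne _)
  rw [h4, h3]
  field_simp

/-- continuation -/
theorem gal_cont (S : Finset (IntermediateField K L)) (m : ℕ) (n : IntermediateField K L → ℤ)
    (h : ∀ g : Gal(L/K), ∑ F ∈ S, n F * fx F.fixingSubgroup g = m)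
    (E : WeierstrassCurve K) (hE : E.IsElliptic) (U : Set ℂ)
    (hS : ∀ F ∈ S, Cont (E.map (algebraMap K F)) U 1) : Cont E U m := by
  classical
  obtain ⟨V0, hV0⟩ := exists_minimal E hE
  have hVF : ∀ F : IntermediateField K L, ∃ V : HeightOneSpectrum (𝓞 F) → WeierstrassCurve (𝓞 F),
      (∀ w, IsMinAt (E.map (algebraMap K F)) w (V w)) ∧ (F ∈ S → ∃ Λ : ℂ → ℂ, MeromorphicOn Λ U ∧
        ∀ s : ℂ, 3 / 2 < s.re → Λ s = LL V s) := by
    intro F
    by_cases hF : F ∈ S
    · obtain ⟨V, hV, Λ, hΛ, hL⟩ := hS F hF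
      simp only [pow_one] at hL
      exact ⟨V, hV, fun _ => ⟨Λ, hΛ, hL⟩⟩
    · obtain ⟨V, hV⟩ := exists_minimal (E.map (algebraMap K F)) inferInstance
      exact ⟨V, hV, fun h => absurd h hF⟩
  choose VF hVF hΛ using hVF
  obtain ⟨R, hR, hRL⟩ := gal_rel S m n h E hE V0 hV0 VF hVF
  choose Λ hΛm hΛL using hΛ
  refine ⟨V0, hV0, fun s => R s * ∏ F : S, Λ F.1 F.2 s ^ n F.1, ?_, fun s hs => ?_⟩
  · have h1 : MeromorphicOn R U := fun x _ => hR x trivial
    exact h1.fun_mul (MeromorphicOn.fun_prod fun F _ => (hΛm F.1 F.2).fun_zpow _)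
  · rw [(hRL s hs).2, ← Finset.prod_coe_sort S (fun F => LL (VF F) s ^ n F)]
    change R s * ∏ F : S, Λ F.1 F.2 s ^ n F.1 = R s * ∏ F : S, LL (VF F.1) s ^ n F.1
    simp only [fun F : S => hΛL F.1 F.2 s hs]

end

section
variable {K L : Type} [Field K] [NumberField K] [Field L] [NumberField L] [Algebra K L]

/-- the number of embeddings of `F` into the field fixed by `g` -/
noncomputable def emb (F : IntermediateField K L) (g : Gal(L/K)) : ℕ :=
  Nat.card {τ : F →ₐ[K] L // ∀ x, g (τ x) = τ x}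

variable [IsGalois K L]

theorem fx_eq_emb (F : IntermediateField K L) (g : Gal(L/K)) :
    fx F.fixingSubgroup g = (emb F g : ℤ) := by
  classical
  have hcoset : ∀ σ σ' : Gal(L/K), (σ : Gal(L/K) ⧸ F.fixingSubgroup) = σ' ↔
      ∀ x : F, σ x = σ' x := by
    intro σ σ'
    rw [QuotientGroup.eq]
    constructor
    · intro h x
      have h1 : (σ⁻¹ * σ') x = x := h x
      have h2 : σ (σ⁻¹ (σ' x)) = σ x := congrArg σ h1
      have h3 : σ (σ⁻¹ (σ' x)) = σ' x := by
        rw [← AlgEquiv.mul_apply, mul_inv_cancel, AlgEquiv.one_apply]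
      rw [← h3, h2]
    · intro h x
      change (σ⁻¹ * σ') x = x
      rw [AlgEquiv.mul_apply, ← h x, ← AlgEquiv.mul_apply, inv_mul_cancel, AlgEquiv.one_apply]
  have hlift : ∀ τ : F →ₐ[K] L, ∃ σ : Gal(L/K), ∀ x : F, σ x = τ x := by
    intro τ
    let σ0 : L →ₐ[K] L := τ.liftNormal L
    refine ⟨AlgEquiv.ofBijective σ0 (Algebra.IsAlgebraic.algHom_bijective σ0), fun x => ?_⟩
    exact τ.liftNormal_commutes L x
  choose s hs using hlift
  rw [fx, emb]
  congr 1
  symm
  refine Nat.card_congr (Equiv.ofBijective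
    (fun τ => ⟨(s τ.1 : Gal(L/K) ⧸ F.fixingSubgroup), ?_⟩) ⟨?_, ?_⟩)
  · change ((g * s τ.1 : Gal(L/K)) : Gal(L/K) ⧸ F.fixingSubgroup) = _
    rw [hcoset]
    intro x
    rw [AlgEquiv.mul_apply, hs, τ.2]
  · intro τ τ' h
    have h1 : (s τ.1 : Gal(L/K) ⧸ F.fixingSubgroup) = s τ'.1 := congrArg Subtype.val h
    rw [hcoset] at h1
    apply Subtype.ext
    ext x
    rw [← hs, ← hs, h1]
  · rintro ⟨c, hc⟩
    obtain ⟨σ, rfl⟩ := QuotientGroup.mk_surjective c
    have h1 : ((g * σ : Gal(L/K)) : Gal(L/K) ⧸ F.fixingSubgroup) = σ := hc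
    rw [hcoset] at h1
    let τ : F →ₐ[K] L := (σ : L →ₐ[K] L).comp F.val
    refine ⟨⟨τ, fun x => h1 x⟩, Subtype.ext ?_⟩
    change (s τ : Gal(L/K) ⧸ F.fixingSubgroup) = σ
    rw [hcoset]
    intro x
    rw [hs]
    rfl

theorem gal_unit (𝓕 : Set (IntermediateField K L)) (hsup : ∀ F ∈ 𝓕, ∀ F' ∈ 𝓕, F ⊔ F' ∈ 𝓕)
    (hconj : ∀ F ∈ 𝓕, ∀ σ : Gal(L/K), F.map (σ : L →ₐ[K] L) ∈ 𝓕) (P : Set ℕ)
    (h0 : ∀ g : Gal(L/K), ∃ F ∈ 𝓕, emb F g ≠ 0)
    (hP : ∀ g : Gal(L/K), ∀ p ∈ P, p.Prime → ∃ F ∈ 𝓕, ¬ p ∣ emb F g) :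
    ∃ (m : ℕ) (S : Finset (IntermediateField K L)) (n : IntermediateField K L → ℤ), m ≠ 0 ∧
      (∀ p ∈ P, p.Prime → ¬ p ∣ m) ∧ (∀ F ∈ S, F ∈ 𝓕) ∧
      ∀ g : Gal(L/K), ∑ F ∈ S, n F * fx F.fixingSubgroup g = m := by
  classical
  let e := IsGalois.intermediateFieldEquivSubgroup (F := K) (E := L)
  have hfinI : Finite (IntermediateField K L) := Finite.of_equiv _ e.toEquiv.symm
  let _ : Fintype (IntermediateField K L) := Fintype.ofFinite _
  let _ : Fintype (Subgroup Gal(L/K)) := Fintype.ofFinite _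
  have hinj : ∀ F F' : IntermediateField K L, F.fixingSubgroup = F'.fixingSubgroup → F = F' := by
    intro F F' h
    rw [← IsGalois.fixedField_fixingSubgroup F, h, IsGalois.fixedField_fixingSubgroup]
  obtain ⟨m, n, hm0, hmP, hn, hsum⟩ := perm_unit
    (IntermediateField.fixingSubgroup '' 𝓕)
    (by
      rintro _ ⟨F, hF, rfl⟩ _ ⟨F', hF', rfl⟩
      exact ⟨F ⊔ F', hsup F hF F' hF', IntermediateField.fixingSubgroup_sup⟩)
    (by
      rintro _ ⟨F, hF, rfl⟩ σ
      exact ⟨_, hconj F hF σ, IsGalois.map_fixingSubgroup F σ⟩) P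
    (by
      intro g
      obtain ⟨F, hF, h⟩ := h0 g
      refine ⟨_, ⟨F, hF, rfl⟩, ?_⟩
      rw [fx_eq_emb]
      exact_mod_cast h)
    (by
      intro g p hp hpp
      obtain ⟨F, hF, h⟩ := hP g p hp hpp
      refine ⟨_, ⟨F, hF, rfl⟩, ?_⟩
      rw [fx_eq_emb]
      exact_mod_cast h)
  refine ⟨m, Finset.univ.filter (· ∈ 𝓕), fun F => n F.fixingSubgroup, hm0, hmP, fun F hF =>
    (Finset.mem_filter.1 hF).2, fun g => ?_⟩
  rw [Finset.sum_filter_of_ne (fun F _ hne => by
    by_contra hF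
    refine hne ?_
    simp only [hn F.fixingSubgroup (by
      rintro ⟨F', hF', h⟩
      exact hF ((hinj _ _ h) ▸ hF')), zero_mul])]
  have h1 := hsum g
  rw [finsum_eq_sum_of_fintype] at h1
  rw [← h1]
  refine Function.Bijective.sum_comp ⟨fun F F' h => hinj F F' h, fun H => ?_⟩
    (fun H => n H * fx H g)
  exact ⟨IntermediateField.fixedField H, IntermediateField.fixingSubgroup_fixedField H⟩

omit [IsGalois K L] in
/-- conjugate fields -/
theorem emb_map (F : IntermediateField K L) (σ g : Gal(L/K)) :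
    emb (F.map (σ : L →ₐ[K] L)) g = emb F g := by
  let e : F ≃ₐ[K] F.map (σ : L →ₐ[K] L) := F.equivMap (σ : L →ₐ[K] L)
  refine Nat.card_congr
    { toFun := fun τ => ⟨τ.1.comp (e : F →ₐ[K] F.map (σ : L →ₐ[K] L)), fun x => τ.2 _⟩
      invFun := fun τ => ⟨τ.1.comp (e.symm : F.map (σ : L →ₐ[K] L) →ₐ[K] F), fun x => τ.2 _⟩
      left_inv := fun τ => ?_
      right_inv := fun τ => ?_ }
  · apply Subtype.ext
    ext x
    exact congrArg τ.1 (e.apply_symm_apply x)
  · apply Subtype.ext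
    ext x
    exact congrArg τ.1 (e.symm_apply_apply x)

/-- arithmetically equivalent fields -/
theorem cont_of_emb {F F' : IntermediateField K L} (h : ∀ g : Gal(L/K), emb F g = emb F' g)
    (E : WeierstrassCurve K) (hE : E.IsElliptic) (U : Set ℂ)
    (hF : Cont (E.map (algebraMap K F)) U 1) : Cont (E.map (algebraMap K F')) U 1 := by
  classical
  obtain ⟨V, hV, Λ, hΛ, hL⟩ := hF
  obtain ⟨V', hV'⟩ := exists_minimal (E.map (algebraMap K F')) inferInstance
  obtain ⟨D, hD0, hD⟩ := frob_count K L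
  let X : Bool → Ext K := fun i => match i with
    | true => ⟨F'⟩
    | false => ⟨F⟩
  let a : Bool → ℕ := fun i => match i with
    | true => 1
    | false => 0
  let b : Bool → ℕ := fun i => match i with
    | true => 0
    | false => 1
  let W : ∀ i, HeightOneSpectrum (𝓞 (X i).F) → WeierstrassCurve (𝓞 (X i).F) := fun i => match i with
    | true => V'
    | false => V
  obtain ⟨R, hR, hRL⟩ := relation (fun i => (X i).F) a b hD0 (by
    intro k _ _ φ hφ
    obtain ⟨g, hg⟩ := hD k φ hφ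
    have h1 : nh (X true).F φ = nh (X false).F φ := by
      have h2 : nh F' φ = nh F φ := by
        have h3 := h g
        have e1 := fx_eq_emb F g
        have e2 := fx_eq_emb F' g
        rw [hg F', hg F]
        rw [fx] at e1 e2
        omega
      exact h2
    rw [Fintype.sum_bool, Fintype.sum_bool, h1]
    simp only [a, b]
    ring) E hE W (by
    rintro (_ | _)
    · exact hV
    · exact hV')
  refine ⟨V', hV', fun s => R s * Λ s, ?_, fun s hs => ?_⟩
  · have h1 : MeromorphicOn R U := fun x _ => hR x trivial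
    exact h1.fun_mul hΛ
  · obtain ⟨-, h2⟩ := hRL s hs
    rw [Fintype.prod_bool, Fintype.prod_bool] at h2
    have h3 : LL V' s ^ 1 * LL V s ^ 0 = R s * (LL V' s ^ 0 * LL V s ^ 1) := h2
    simp only
    rw [hL s hs, pow_one, pow_one]
    rw [pow_one, pow_zero, mul_one, pow_zero, one_mul, pow_one] at h3
    exact h3.symm

/-- the continuation is a local property -/
theorem gal_local (E : WeierstrassCurve K) (hE : E.IsElliptic) (U : Set ℂ) (P : Set ℕ)
    (h0 : ∀ g : Gal(L/K), ∃ F : IntermediateField K L, emb F g ≠ 0 ∧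
      ∀ F', F ≤ F' → Cont (E.map (algebraMap K F')) U 1)
    (hP : ∀ g : Gal(L/K), ∀ p ∈ P, p.Prime → ∃ F : IntermediateField K L, ¬ p ∣ emb F g ∧
      ∀ F', F ≤ F' → Cont (E.map (algebraMap K F')) U 1) :
    ∃ m : ℕ, m ≠ 0 ∧ (∀ p ∈ P, p.Prime → ¬ p ∣ m) ∧ Cont E U m := by
  obtain ⟨m, S, n, hm0, hmP, hS, hsum⟩ := gal_unit
    {F : IntermediateField K L | ∀ F', F ≤ F' → Cont (E.map (algebraMap K F')) U 1}
    (fun F hF F' _ F'' h => hF F'' (le_sup_left.trans h))
    (fun F hF σ F' h => by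
      have h1 : F ≤ F'.map (σ⁻¹ : Gal(L/K)).toAlgHom := by
        intro x hx
        have h2 : σ x ∈ F' := h ⟨x, hx, rfl⟩
        refine ⟨σ x, h2, ?_⟩
        change σ⁻¹ (σ x) = x
        rw [← AlgEquiv.mul_apply, inv_mul_cancel, AlgEquiv.one_apply]
      exact cont_of_emb (fun g => emb_map F' σ⁻¹ g) E hE U (hF _ h1)) P
    (fun g => by
      obtain ⟨F, h1, h2⟩ := h0 g
      exact ⟨F, h2, h1⟩)
    (fun g p hp hpp => by
      obtain ⟨F, h1, h2⟩ := hP g p hp hpp
      exact ⟨F, h2, h1⟩)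
  exact ⟨m, hm0, hmP, gal_cont S m n hsum E hE U fun F hF => hS F hF F le_rfl⟩

/-- the hyperelementary case -/
theorem gal_hyper (K L : Type) [Field K] [NumberField K] [Field L] [NumberField L] [Algebra K L]
    [IsGalois K L] (P : Set ℕ) :
    ∃ m : ℕ, m ≠ 0 ∧ (∀ p ∈ P, p.Prime → ¬ p ∣ m) ∧
      ∀ E : WeierstrassCurve K, E.IsElliptic → ∀ U : Set ℂ,
        (∀ H : Subgroup Gal(L/K), IsCyclic H ∨ (∃ p ∈ P, p.Prime ∧ IsHyper p H) →
          Cont (E.map (algebraMap K (IntermediateField.fixedField H))) U 1) → Cont E U m := by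
  obtain ⟨m, S, n, hm0, hmP, hS, hsum⟩ := gal_unit
    {F : IntermediateField K L | IsCyclic F.fixingSubgroup ∨
      ∃ p ∈ P, p.Prime ∧ IsHyper p F.fixingSubgroup}
    (by
      intro F hF F' _
      have hle : (F ⊔ F').fixingSubgroup ≤ F.fixingSubgroup := by
        rw [IntermediateField.fixingSubgroup_sup]
        exact inf_le_left
      rcases hF with h | ⟨p, hp, hpp, h⟩
      · exact Or.inl (isCyclic_of_injective (Subgroup.inclusion hle)
          (Subgroup.inclusion_injective hle))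
      · exact Or.inr ⟨p, hp, hpp, h.le hle⟩)
    (by
      intro F hF σ
      have e : (F.map (σ : L →ₐ[K] L)).fixingSubgroup =
          F.fixingSubgroup.map (MulAut.conj σ).toMonoidHom := IsGalois.map_fixingSubgroup F σ
      rw [Set.mem_ofPred_eq, e]
      rcases hF with h | ⟨p, hp, hpp, h⟩
      · let e' := F.fixingSubgroup.equivMapOfInjective (MulAut.conj σ).toMonoidHom
          (MulAut.conj σ).injective
        exact Or.inl (isCyclic_of_surjective e'.toMonoidHom e'.surjective)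
      · exact Or.inr ⟨p, hp, hpp, h.conj σ⟩) P
    (by
      intro g
      have e : (IntermediateField.fixedField (Subgroup.zpowers g)).fixingSubgroup =
        Subgroup.zpowers g := IntermediateField.fixingSubgroup_fixedField _
      refine ⟨IntermediateField.fixedField (Subgroup.zpowers g), Or.inl ?_, ?_⟩
      · rw [e]
        infer_instance
      · have h1 := fx_eq_emb (IntermediateField.fixedField (Subgroup.zpowers g)) g
        intro h
        rw [h, e, fx, Nat.cast_zero, Nat.cast_eq_zero, Nat.card_eq_zero] at h1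
        rcases h1 with h1 | h1
        · refine h1.false ⟨((1 : Gal(L/K)) : Gal(L/K) ⧸ Subgroup.zpowers g), ?_⟩
          change ((g * 1 : Gal(L/K)) : Gal(L/K) ⧸ Subgroup.zpowers g) = _
          rw [QuotientGroup.eq, mul_one, mul_one]
          exact Subgroup.inv_mem _ (Subgroup.mem_zpowers g)
        · exact h1.not_finite inferInstance)
    (by
      intro g p hp hpp
      obtain ⟨H, hH, h⟩ := hyper_count hpp g
      have e : (IntermediateField.fixedField H).fixingSubgroup = H :=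
        IntermediateField.fixingSubgroup_fixedField _
      refine ⟨IntermediateField.fixedField H, Or.inr ⟨p, hp, hpp, ?_⟩, ?_⟩
      · rw [e]
        exact hH
      · have h1 := fx_eq_emb (IntermediateField.fixedField H) g
        rw [e] at h1
        rw [h1] at h
        exact_mod_cast h)
  refine ⟨m, hm0, hmP, fun E hE U h => gal_cont S m n hsum E hE U fun F hF => ?_⟩
  have h1 := h F.fixingSubgroup (hS F hF)
  rw [IsGalois.fixedField_fixingSubgroup] at h1
  exact h1

end

end Pool.Agent.R433.MD
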