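import Pool.Agent.R433.MD.Euler

/-! Relations between the `L`-series of an elliptic curve over number fields. -/

set_option autoImplicit false

namespace Pool.Agent.R433.MD

open NumberField IsDedekindDomain Complex Filter Topology
open Pool.Agent.H921R2.TatePole (nm two_le_nm nm_summable)
open Pool.Agent.H341R2.EC
open Pool.Agent.H341R2 (finite_v card_v)

section
variable {K : Type} [Field K] [NumberField K]

/-- the number of points depends only on the residue degree -/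
theorem exists_count (v : HeightOneSpectrum (𝓞 K)) (W : WeierstrassCurve (𝓞 K)) :
    ∃ g : ℕ → ℕ, ∀ (F : Type) [Field F] [NumberField F] [Algebra K F] (w : Fib F v),
      aff (red w.1 (W.map (algebraMap (𝓞 K) (𝓞 F)))) = g (fdeg w) := by
  have h1 : ∀ n : ℕ, ∃ c : ℕ, ∀ (l : Type) [Field l] [Algebra (𝓞 K ⧸ v.asIdeal) l], 0 < n →
      Module.finrank (𝓞 K ⧸ v.asIdeal) l = n →
      aff ((W.map (Ideal.Quotient.mk v.asIdeal)).map (algebraMap (𝓞 K ⧸ v.asIdeal) l)) = c := by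
    intro n
    by_cases hn : 0 < n
    · obtain ⟨L, iF, iFin, iA, hL⟩ := exists_ext (𝓞 K ⧸ v.asIdeal) hn
      refine ⟨aff ((W.map (Ideal.Quotient.mk v.asIdeal)).map (algebraMap (𝓞 K ⧸ v.asIdeal) L)),
        fun l _ _ _ hl => ?_⟩
      obtain ⟨e⟩ := iso_of_finrank (k := 𝓞 K ⧸ v.asIdeal) (l := l) (l' := L)
        (by rw [hl]; exact hn) (by rw [hl, hL])
      have h2 := aff_equiv (e : l ≃+* L)
        ((W.map (Ideal.Quotient.mk v.asIdeal)).map (algebraMap (𝓞 K ⧸ v.asIdeal) l))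
      rw [← h2, WeierstrassCurve.map_map]
      congr 2
      exact RingHom.ext fun x => e.commutes x
    · exact ⟨0, fun l _ _ h => absurd h hn⟩
  choose g hg using h1
  refine ⟨g, fun F _ _ _ w => ?_⟩
  rw [← hg (fdeg w) (𝓞 F ⧸ w.1.asIdeal) (fdeg_pos w) rfl]
  unfold red
  rw [WeierstrassCurve.map_map, WeierstrassCurve.map_map]
  congr 1

/-- the local factors at good primes -/
theorem lf_good {E : WeierstrassCurve K} {W : WeierstrassCurve (𝓞 K)} (hW : IsModel E W)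
    {v : HeightOneSpectrum (𝓞 K)} (h6 : (6 : 𝓞 K) ∉ v.asIdeal) (hΔ : W.Δ ∉ v.asIdeal)
    {g : ℕ → ℕ} (hg : ∀ (F : Type) [Field F] [NumberField F] [Algebra K F] (w : Fib F v),
      aff (red w.1 (W.map (algebraMap (𝓞 K) (𝓞 F)))) = g (fdeg w))
    {F : Type} [Field F] [NumberField F] [Algebra K F]
    {V : HeightOneSpectrum (𝓞 F) → WeierstrassCurve (𝓞 F)}
    (hV : ∀ w, IsMinAt (E.map (algebraMap K F)) w (V w)) (w : Fib F v) (s : ℂ) :
    lf V s w.1 = 1 - (((nm v : ℤ) ^ fdeg w - (g (fdeg w) : ℤ) : ℤ) : ℂ) *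
      ((nm v ^ fdeg w : ℕ) : ℂ) ^ (-s) + ((nm v ^ fdeg w : ℕ) : ℂ) ^ (1 - 2 * s) := by
  have hmem : ∀ x : 𝓞 K, x ∉ v.asIdeal → algebraMap (𝓞 K) (𝓞 F) x ∉ w.1.asIdeal := by
    intro x hx h
    apply hx
    rw [fib_le w]
    exact h
  have hWF : IsModel (E.map (algebraMap K F)) (W.map (algebraMap (𝓞 K) (𝓞 F))) := by
    obtain ⟨C, hC⟩ := hW
    refine ⟨C.map (algebraMap K F), ?_⟩
    rw [WeierstrassCurve.map_variableChange, hC, WeierstrassCurve.map_map,
      WeierstrassCurve.map_map]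
    congr 1
  have h6' : (6 : 𝓞 F) ∉ w.1.asIdeal := by
    have := hmem 6 h6
    rwa [map_ofNat] at this
  have hΔ' : (W.map (algebraMap (𝓞 K) (𝓞 F))).Δ ∉ w.1.asIdeal := by
    rw [WeierstrassCurve.map_Δ]
    exact hmem _ hΔ
  have h1 := minimal_good (hV w.1) hWF hΔ'
  have h2 := aff_model (hV w.1).1 hWF h1 hΔ' h6'
  rw [hg F w] at h2
  unfold lf trc dlt
  rw [h2, if_neg h1, nm_fib w, one_mul]
  push_cast
  rfl

/-- regrouping of the Euler product -/
theorem hasProd_fib {F : Type} [Field F] [NumberField F] [Algebra K F]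
    {f : HeightOneSpectrum (𝓞 F) → ℂ} {a : ℂ} (h : HasProd f a) :
    HasProd (fun v : HeightOneSpectrum (𝓞 K) => ∏ w : Fib F v, f w.1) a := by
  have h1 := (Equiv.sigmaFiberEquiv
    (und (K := K) : HeightOneSpectrum (𝓞 F) → HeightOneSpectrum (𝓞 K))).hasProd_iff.2 h
  refine HasProd.sigma h1 fun v => ?_
  exact hasProd_fintype _

/-- comparison of two products which differ at finitely many places -/
theorem compare {X : Type} {A B : X → ℂ} {a b : ℂ} (hA : HasProd A a) (hB : HasProd B b)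
    (S : Finset X) (h : ∀ v, v ∉ S → A v = B v) :
    a * ∏ v ∈ S, B v = b * ∏ v ∈ S, A v := by
  classical
  have h1 : HasProd (fun v => if v ∈ S then B v else 1) (∏ v ∈ S, if v ∈ S then B v else 1) :=
    hasProd_prod_of_ne_finset_one fun v hv => if_neg hv
  have h2 : HasProd (fun v => if v ∈ S then A v else 1) (∏ v ∈ S, if v ∈ S then A v else 1) :=
    hasProd_prod_of_ne_finset_one fun v hv => if_neg hv
  have h3 := hA.mul h1
  have h4 := hB.mul h2
  have h5 : (fun v => A v * if v ∈ S then B v else 1) = fun v => B v * if v ∈ S then A v else 1 := by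
    funext v
    by_cases hv : v ∈ S
    · rw [if_pos hv, if_pos hv, mul_comm]
    · rw [if_neg hv, if_neg hv, h v hv]
  rw [h5] at h3
  have h6 := h3.unique h4
  rw [Finset.prod_congr rfl (g := B) (fun v hv => if_pos hv),
    Finset.prod_congr rfl (g := A) (fun v hv => if_pos hv)] at h6
  exact h6

theorem hasProd_pow {X : Type} {f : X → ℂ} {a : ℂ} (h : HasProd f a) (n : ℕ) :
    HasProd (fun x => f x ^ n) (a ^ n) := by
  induction n with
  | zero => simp
  | succ n ih =>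
    simp only [pow_succ]
    exact ih.mul h

/-- **Relations between L-series.** -/
theorem relation {ι : Type} [Fintype ι] (F : ι → Type) [∀ i, Field (F i)] [∀ i, NumberField (F i)]
    [∀ i, Algebra K (F i)] (a b : ι → ℕ) {D : 𝓞 K} (hD0 : D ≠ 0)
    (hD : ∀ (k : Type) [Field k] [Finite k] (φ : 𝓞 K →+* k), φ D ≠ 0 →
      ∑ i, a i * nh (F i) φ = ∑ i, b i * nh (F i) φ)
    (E : WeierstrassCurve K) (hE : E.IsElliptic)
    (V : ∀ i, HeightOneSpectrum (𝓞 (F i)) → WeierstrassCurve (𝓞 (F i)))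
    (hV : ∀ i w, IsMinAt (E.map (algebraMap K (F i))) w (V i w)) :
    ∃ R : ℂ → ℂ, MeromorphicOn R Set.univ ∧ ∀ s : ℂ, 3 / 2 < s.re → R s ≠ 0 ∧
      ∏ i, (∏' w, (lf (V i) s w)⁻¹) ^ a i = R s * ∏ i, (∏' w, (lf (V i) s w)⁻¹) ^ b i := by
  classical
  obtain ⟨W, hW, hWΔ⟩ := exists_model E hE
  have h6 : (6 : 𝓞 K) ≠ 0 := by norm_num
  have hbad : {v : HeightOneSpectrum (𝓞 K) | 6 * W.Δ * D ∈ v.asIdeal}.Finite :=
    finite_mem (mul_ne_zero (mul_ne_zero h6 hWΔ) hD0)
  set S := hbad.toFinset with hS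
  -- local products
  let A : (ι → ℕ) → ℂ → HeightOneSpectrum (𝓞 K) → ℂ := fun e s v =>
    ∏ i, (∏ w : Fib (F i) v, (lf (V i) s w.1)⁻¹) ^ e i
  have hprod : ∀ (e : ι → ℕ) (s : ℂ), 3 / 2 < s.re →
      HasProd (A e s) (∏ i, (∏' w, (lf (V i) s w)⁻¹) ^ e i) := by
    intro e s hs
    refine hasProd_prod fun i _ => ?_
    have hEi : (E.map (algebraMap K (F i))).IsElliptic := inferInstance
    exact hasProd_pow (hasProd_fib (hasProd_lf _ hEi (V i) (hV i) hs).1) (e i)
  have hgood : ∀ (s : ℂ) (v : HeightOneSpectrum (𝓞 K)), v ∉ S → A a s v = A b s v := by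
    intro s v hv
    have hv' : 6 * W.Δ * D ∉ v.asIdeal := fun h => hv (hbad.mem_toFinset.2 h)
    have hvD : D ∉ v.asIdeal := fun h => hv' (v.asIdeal.mul_mem_left _ h)
    have hvΔ : W.Δ ∉ v.asIdeal := fun h =>
      hv' (v.asIdeal.mul_mem_right _ (v.asIdeal.mul_mem_left _ h))
    have hv6 : (6 : 𝓞 K) ∉ v.asIdeal := fun h =>
      hv' (v.asIdeal.mul_mem_right _ (v.asIdeal.mul_mem_right _ h))
    obtain ⟨g, hg⟩ := exists_count v W
    let G : ℕ → ℂ := fun n => (1 - (((nm v : ℤ) ^ n - (g n : ℤ) : ℤ) : ℂ) *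
      ((nm v ^ n : ℕ) : ℂ) ^ (-s) + ((nm v ^ n : ℕ) : ℂ) ^ (1 - 2 * s))⁻¹
    have hA : ∀ e : ι → ℕ, A e s v = ∏ i, (∏ w : Fib (F i) v, G (fdeg w)) ^ e i := by
      intro e
      refine Finset.prod_congr rfl fun i _ => ?_
      congr 1
      refine Finset.prod_congr rfl fun w _ => ?_
      rw [lf_good hW hv6 hvΔ hg (hV i) w s]
    rw [hA, hA]
    refine comb (fun i => Fib (F i) v) (fun i w => fdeg w) (fun i w => fdeg_pos w) a b ?_ G
    intro m hm
    obtain ⟨k, iF, iFin, iA, hk⟩ := exists_ext (𝓞 K ⧸ v.asIdeal) hm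
    have h1 := hD k (base v k) (by
      rw [base, RingHom.comp_apply]
      intro h
      rw [map_eq_zero_iff _ (algebraMap (𝓞 K ⧸ v.asIdeal) k).injective,
        Ideal.Quotient.eq_zero_iff_mem] at h
      exact hvD h)
    simp only [nh_eq, hk] at h1
    exact h1
  -- the finite parts
  have hmer : ∀ e : ι → ℕ, MeromorphicOn (fun s => ∏ v ∈ S, A e s v) Set.univ := by
    intro e
    apply MeromorphicOn.fun_prod
    intro v _
    change MeromorphicOn (fun s => ∏ i, (∏ w : Fib (F i) v, (lf (V i) s w.1)⁻¹) ^ e i) Set.univ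
    apply MeromorphicOn.fun_prod
    intro i _
    apply MeromorphicOn.fun_pow
    apply MeromorphicOn.fun_prod
    intro w _
    apply MeromorphicOn.fun_inv
    intro z _
    exact ((differentiable_lf (V i) w.1).analyticAt z).meromorphicAt
  have hne : ∀ (e : ι → ℕ) (s : ℂ), 3 / 2 < s.re → ∏ v ∈ S, A e s v ≠ 0 := by
    intro e s hs
    refine Finset.prod_ne_zero_iff.2 fun v _ => Finset.prod_ne_zero_iff.2 fun i _ => ?_
    refine pow_ne_zero _ (Finset.prod_ne_zero_iff.2 fun w _ => inv_ne_zero (lf_ne_zero _ hs _))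
  refine ⟨fun s => (∏ v ∈ S, A a s v) / (∏ v ∈ S, A b s v), (hmer a).fun_div (hmer b),
    fun s hs => ⟨div_ne_zero (hne a s hs) (hne b s hs), ?_⟩⟩
  have h1 := compare (hprod a s hs) (hprod b s hs) S (hgood s)
  have h2 := hne b s hs
  rw [div_mul_eq_mul_div, eq_div_iff h2, h1, mul_comm]

end

end Pool.Agent.R433.MD
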