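import Mathlib

/-! Numbers of `p`-th roots in a finite field. -/

set_option autoImplicit false

namespace Pool.Agent.R433.MD

open Finset

/-- the number of `p`-th roots of `x` -/
noncomputable def rc {F : Type*} [Monoid F] (p : ℕ) (x : F) : ℕ := Nat.card {t : F // t ^ p = x}

section Group

variable {G : Type*} [CommGroup G] [Finite G]

theorem rc_of_not_mem {p : ℕ} {x : G} (hx : x ∉ (powMonoidHom p : G →* G).range) : rc p x = 0 := by
  unfold rc
  have : IsEmpty {t : G // t ^ p = x} := ⟨fun t => hx ⟨t.1, t.2⟩⟩
  exact Nat.card_of_isEmpty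

theorem rc_of_mem {p : ℕ} {x : G} (hx : x ∈ (powMonoidHom p : G →* G).range) :
    rc p x = Nat.card (powMonoidHom p : G →* G).ker := by
  obtain ⟨y, hy⟩ := hx
  have hy' : y ^ p = x := hy
  unfold rc
  refine Nat.card_congr
    { toFun := fun t => ⟨t.1 * y⁻¹, ?_⟩
      invFun := fun t => ⟨t.1 * y, ?_⟩
      left_inv := fun t => by simp
      right_inv := fun t => by simp }
  · change (t.1 * y⁻¹) ^ p = 1
    rw [mul_pow, inv_pow, t.2, hy', mul_inv_cancel]
  · have ht : t.1 ^ p = 1 := t.2
    rw [mul_pow, ht, hy', one_mul]

theorem rc_identity [IsCyclic G] {p : ℕ} (hp : p.Prime) (a b : G) :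
    rc p b + ∑ j ∈ range p, rc p (a * b ^ j) = rc p a * rc p b + p := by
  classical
  set H := (powMonoidHom p : G →* G).range with hH
  have hidx : H.index = (Nat.card G).gcd p := IsCyclic.index_powMonoidHom_range G p
  have hker : Nat.card (powMonoidHom p : G →* G).ker = H.index := by
    have h1 : Nat.card H * H.index = Nat.card G := H.card_mul_index
    have h2 := Subgroup.card_mul_index (powMonoidHom p : G →* G).ker
    rw [Subgroup.index_ker] at h2
    have h3 : 0 < Nat.card H := Nat.card_pos
    have h4 : Nat.card (powMonoidHom p : G →* G).ker * Nat.card H = Nat.card H * H.index := by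
      rw [h1]; exact h2
    rw [mul_comm] at h4
    exact Nat.eq_of_mul_eq_mul_left h3 h4
  have hrc : ∀ x : G, rc p x = if x ∈ H then H.index else 0 := by
    intro x
    split_ifs with hx
    · rw [rc_of_mem hx, hker]
    · exact rc_of_not_mem hx
  have hd : (Nat.card G).gcd p ∣ p := Nat.gcd_dvd_right _ _
  rcases (Nat.dvd_prime hp).1 hd with h1 | h1
  · -- all elements are `p`-th powers
    rw [h1] at hidx
    have htop : H = ⊤ := Subgroup.index_eq_one.1 hidx
    have : ∀ x : G, rc p x = 1 := by
      intro x
      rw [hrc, if_pos (by rw [htop]; trivial), hidx]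
    simp only [this]
    simp [add_comm]
  · rw [h1] at hidx
    simp only [hrc, hidx]
    by_cases ha : a ∈ H
    · by_cases hb : b ∈ H
      · have : ∀ j ∈ range p, (if a * b ^ j ∈ H then p else 0) = p := fun j _ =>
          if_pos (H.mul_mem ha (H.pow_mem hb j))
        rw [sum_congr rfl this]
        simp only [ha, hb, if_true, sum_const, card_range, smul_eq_mul]
        ring
      · have : ∀ j ∈ range p, (if a * b ^ j ∈ H then p else 0) = if j = 0 then p else 0 := by
          intro j hj
          by_cases h0 : j = 0
          · rw [if_pos h0, if_pos]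
            rw [h0, pow_zero, mul_one]
            exact ha
          · rw [if_neg h0, if_neg]
            intro h2
            have h3 : b ^ j ∈ H := (H.mul_mem_cancel_left ha).1 h2
            apply hb
            have h4 : b ^ p ∈ H := ⟨b, rfl⟩
            have hcop : Nat.Coprime j p := by
              rw [Nat.coprime_comm, hp.coprime_iff_not_dvd]
              intro h5
              exact absurd (Nat.le_of_dvd (Nat.pos_of_ne_zero h0) h5) (not_le.2 (mem_range.1 hj))
            have h6 := Nat.gcd_eq_gcd_ab j p
            rw [hcop] at h6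
            have h7 : b = (b ^ j) ^ (j.gcdA p) * (b ^ p) ^ (j.gcdB p) := by
              rw [← zpow_natCast, ← zpow_natCast, ← zpow_mul, ← zpow_mul, ← zpow_add, ← h6]
              simp
            rw [h7]
            exact H.mul_mem (H.zpow_mem h3 _) (H.zpow_mem h4 _)
        rw [sum_congr rfl this]
        simp [hb, ha, hp.pos]
    · by_cases hb : b ∈ H
      · have : ∀ j ∈ range p, (if a * b ^ j ∈ H then p else 0) = 0 := fun j _ =>
          if_neg fun h2 => ha ((H.mul_mem_cancel_right (H.pow_mem hb j)).1 h2)
        rw [sum_congr rfl this]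
        simp [hb, ha]
      · -- exactly one `j`
        have hcard : Nat.card (G ⧸ H) = p := hidx
        have : Fact p.Prime := ⟨hp⟩
        have hb1 : (b : G ⧸ H) ≠ 1 := by
          rwa [Ne, QuotientGroup.eq_one_iff]
        have hord : orderOf (b : G ⧸ H) = p := by
          have h2 : orderOf (b : G ⧸ H) ∣ p := by
            rw [← hcard]; exact orderOf_dvd_natCard _
          rcases (Nat.dvd_prime hp).1 h2 with h3 | h3
          · exact absurd (orderOf_eq_one_iff.1 h3) hb1
          · exact h3
        have hgen : (a : G ⧸ H)⁻¹ ∈ Subgroup.zpowers (b : G ⧸ H) := by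
          rw [zpowers_eq_top_of_prime_card hcard hb1]
          trivial
        obtain ⟨j, hj, hj'⟩ : ∃ j < p, (b : G ⧸ H) ^ j = (a : G ⧸ H)⁻¹ := by
          have h2 := (mem_zpowers_iff_mem_range_orderOf (G := G ⧸ H)).1 hgen
          rw [hord, mem_image] at h2
          obtain ⟨j, hj, hj'⟩ := h2
          exact ⟨j, mem_range.1 hj, hj'⟩
        rw [sum_eq_single j]
        · have h3 : a * b ^ j ∈ H := by
            rw [← QuotientGroup.eq_one_iff, QuotientGroup.mk_mul, QuotientGroup.mk_pow, hj',
              mul_inv_cancel]
          simp [ha, hb, h3]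
        · intro i hi hij
          rw [if_neg]
          intro h3
          apply hij
          rw [← QuotientGroup.eq_one_iff, QuotientGroup.mk_mul, QuotientGroup.mk_pow] at h3
          have h4 : (b : G ⧸ H) ^ i = (b : G ⧸ H) ^ j := by
            rw [hj']
            exact eq_inv_of_mul_eq_one_right h3
          have h5 := pow_inj_mod.1 h4
          rw [hord, Nat.mod_eq_of_lt (mem_range.1 hi), Nat.mod_eq_of_lt hj] at h5
          exact h5
        · intro h3
          exact absurd (mem_range.2 hj) h3

end Group

section Field

variable {F : Type*} [Field F]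

theorem rc_units {p : ℕ} (hp : p ≠ 0) (x : Fˣ) : rc p (x : F) = rc p x := by
  unfold rc
  refine Nat.card_congr
    { toFun := fun t => ⟨Units.mk0 t.1 ?_, ?_⟩
      invFun := fun t => ⟨(t.1 : F), ?_⟩
      left_inv := fun t => by simp
      right_inv := fun t => by simp }
  · intro h
    have := t.2
    rw [h, zero_pow hp] at this
    exact x.ne_zero this.symm
  · apply Units.ext
    simpa using t.2
  · have := congrArg (Units.val) t.2
    simpa using this

/-- the `p`-th roots of `b`, `a b^j`, against those of `a` and `b`. -/
theorem rc_field [Finite F] {p : ℕ} (hp : p.Prime) {a b : F} (ha : a ≠ 0) (hb : b ≠ 0) :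
    rc p b + ∑ j ∈ range p, rc p (a * b ^ j) = rc p a * rc p b + p := by
  have h := rc_identity hp (Units.mk0 a ha) (Units.mk0 b hb)
  rw [← rc_units hp.ne_zero, ← rc_units hp.ne_zero] at h
  simp only [← rc_units hp.ne_zero (_ * _), Units.val_mul, Units.val_pow_eq_pow_val,
    Units.val_mk0] at h
  exact h

end Field

/-- Numbers determined by sums over divisors. -/
theorem eq_of_divisor_sums {A B : ℕ → ℕ}
    (h : ∀ k, 0 < k → ∑ f ∈ k.divisors, f * A f = ∑ f ∈ k.divisors, f * B f) :
    ∀ k, 0 < k → A k = B k := by
  intro k
  induction k using Nat.strong_induction_on with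
  | _ k ih =>
    intro hk
    have h1 := h k hk
    rw [← Nat.cons_self_properDivisors hk.ne', sum_cons, sum_cons] at h1
    have h2 : ∑ f ∈ k.properDivisors, f * A f = ∑ f ∈ k.properDivisors, f * B f := by
      refine sum_congr rfl fun f hf => ?_
      have h3 := Nat.mem_properDivisors.1 hf
      rw [ih f h3.2 (Nat.pos_of_mem_properDivisors hf)]
    rw [h2] at h1
    have h3 : k * A k = k * B k := Nat.add_right_cancel h1
    exact Nat.eq_of_mul_eq_mul_left hk h3

end Pool.Agent.R433.MD
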