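import Pool.Agent.R433.MD.FinField

/-! Homomorphisms of rings of integers to fields, above a given one. -/

set_option autoImplicit false

namespace Pool.Agent.R433.MD

open NumberField Polynomial

/-- the homomorphisms of `𝓞 F` above `φ` -/
abbrev Over {K : Type} [Field K] [NumberField K] (F : Type) [Field F] [NumberField F] [Algebra K F]
    {k : Type} [Field k] (φ : 𝓞 K →+* k) : Type :=
  {ψ : 𝓞 F →+* k // ψ.comp (algebraMap (𝓞 K) (𝓞 F)) = φ}

/-- their number -/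
noncomputable def nh {K : Type} [Field K] [NumberField K] (F : Type) [Field F] [NumberField F]
    [Algebra K F] {k : Type} [Field k] (φ : 𝓞 K →+* k) : ℕ := Nat.card (Over F φ)

variable {K : Type} [Field K] [NumberField K] {F : Type} [Field F] [NumberField F] [Algebra K F]

theorem integral_over (x : 𝓞 F) : IsIntegral (𝓞 K) x :=
  Algebra.IsIntegral.isIntegral x

theorem integral_over' (x : 𝓞 F) : IsIntegral (𝓞 K) (x : F) :=
  (integral_over (K := K) x).map (IsScalarTower.toAlgHom (𝓞 K) (𝓞 F) F)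

theorem exists_poly (B : PowerBasis K F) {α : 𝓞 F} (hα : (α : F) = B.gen) :
    ∃ D : 𝓞 K, D ≠ 0 ∧ ∀ z : 𝓞 F, ∃ g : (𝓞 K)[X],
      aeval α g = algebraMap (𝓞 K) (𝓞 F) D * z := by
  have hint : IsIntegral (𝓞 K) B.gen := by
    rw [← hα]
    exact integral_over' α
  have hd : IsIntegral (𝓞 K) (Algebra.discr K B.basis) := by
    apply Algebra.discr_isIntegral
    intro i
    rw [B.basis_eq_pow]
    exact hint.pow _
  obtain ⟨D, hD⟩ := IsIntegrallyClosed.isIntegral_iff.1 hd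
  refine ⟨D, ?_, fun z => ?_⟩
  · rintro rfl
    rw [map_zero] at hD
    exact Algebra.discr_not_zero_of_basis K B.basis hD.symm
  · have h1 := Algebra.discr_mul_isIntegral_mem_adjoin K hint (integral_over' (K := K) z)
    rw [Algebra.adjoin_singleton_eq_range_aeval] at h1
    obtain ⟨g, hg⟩ := h1
    refine ⟨g, ?_⟩
    have hg' : aeval B.gen g = Algebra.discr K B.basis • (z : F) := hg
    apply RingOfIntegers.coe_injective (K := F)
    rw [map_mul, ← IsScalarTower.algebraMap_apply, IsScalarTower.algebraMap_apply (𝓞 K) K F, hD,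
      ← Algebra.smul_def, ← hg', ← hα]
    exact (aeval_algebraMap_apply F α g).symm

theorem over_equiv (B : PowerBasis K F) {α : 𝓞 F} (hα : (α : F) = B.gen) :
    ∃ D : 𝓞 K, D ≠ 0 ∧ ∀ (k : Type) [Field k] (φ : 𝓞 K →+* k), φ D ≠ 0 →
      Nonempty (Over F φ ≃ {x : k // (minpoly (𝓞 K) α).eval₂ φ x = 0}) := by
  obtain ⟨D, hD0, hD⟩ := exists_poly B hα
  refine ⟨D, hD0, fun k _ φ hφ => ?_⟩
  -- values of polynomials
  have hval : ∀ (ψ : Over F φ) (g : (𝓞 K)[X]), ψ.1 (aeval α g) = g.eval₂ φ (ψ.1 α) := by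
    intro ψ g
    rw [aeval_def, hom_eval₂, ψ.2]
  have hroot : ∀ ψ : Over F φ, (minpoly (𝓞 K) α).eval₂ φ (ψ.1 α) = 0 := by
    intro ψ
    rw [← hval, minpoly.aeval, map_zero]
  refine ⟨Equiv.ofBijective (fun ψ => ⟨ψ.1 α, hroot ψ⟩) ⟨?_, ?_⟩⟩
  · intro ψ1 ψ2 h
    have h1 : ψ1.1 α = ψ2.1 α := congrArg Subtype.val h
    apply Subtype.ext
    ext z
    obtain ⟨g, hg⟩ := hD z
    have e1 := hval ψ1 g
    have e2 := hval ψ2 g
    rw [hg, map_mul] at e1 e2
    have f1 : ψ1.1 (algebraMap (𝓞 K) (𝓞 F) D) = φ D := RingHom.congr_fun ψ1.2 D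
    have f2 : ψ2.1 (algebraMap (𝓞 K) (𝓞 F) D) = φ D := RingHom.congr_fun ψ2.2 D
    rw [f1, h1] at e1
    rw [f2, ← e1] at e2
    exact (mul_left_cancel₀ hφ e2).symm
  · rintro ⟨x, hx⟩
    have hker : ∀ g g' : (𝓞 K)[X], aeval α g = aeval α g' → g.eval₂ φ x = g'.eval₂ φ x := by
      intro g g' h
      have h1 : aeval α (g - g') = 0 := by rw [map_sub, h, sub_self]
      obtain ⟨q, hq⟩ := minpoly.isIntegrallyClosed_dvd (integral_over (K := K) α) h1
      have h2 : (g - g').eval₂ φ x = 0 := by rw [hq, eval₂_mul, hx, zero_mul]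
      rw [eval₂_sub] at h2
      exact sub_eq_zero.1 h2
    choose G hG using hD
    have key : ∀ (g : (𝓞 K)[X]) (z : 𝓞 F), aeval α g = algebraMap (𝓞 K) (𝓞 F) D * z →
        (φ D)⁻¹ * (G z).eval₂ φ x = (φ D)⁻¹ * g.eval₂ φ x := by
      intro g z h
      rw [hker (G z) g (by rw [hG, h])]
    refine ⟨⟨
      { toFun := fun z => (φ D)⁻¹ * (G z).eval₂ φ x
        map_one' := ?_
        map_zero' := ?_
        map_add' := fun y z => ?_
        map_mul' := fun y z => ?_ }, ?_⟩, ?_⟩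
    · rw [key (C D) 1 (by rw [aeval_C, mul_one]), eval₂_C, inv_mul_cancel₀ hφ]
    · have h1 : φ D * (G (y * z)).eval₂ φ x = (G y).eval₂ φ x * (G z).eval₂ φ x := by
        rw [← eval₂_mul, ← eval₂_C φ x, ← eval₂_mul]
        apply hker
        rw [map_mul, map_mul, aeval_C, hG, hG, hG]
        ring
      have h2 : (G (y * z)).eval₂ φ x = (φ D)⁻¹ * ((G y).eval₂ φ x * (G z).eval₂ φ x) := by
        rw [← h1, ← mul_assoc, inv_mul_cancel₀ hφ, one_mul]
      rw [h2]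
      ring
    · rw [key 0 0 (by rw [map_zero, mul_zero]), eval₂_zero, mul_zero]
    · rw [key (G y + G z) (y + z) (by rw [map_add, hG, hG, mul_add]), eval₂_add, mul_add]
    · ext r
      change (φ D)⁻¹ * (G (algebraMap (𝓞 K) (𝓞 F) r)).eval₂ φ x = φ r
      rw [key (C (D * r)) _ (by rw [aeval_C, map_mul]), eval₂_C, map_mul, ← mul_assoc,
        inv_mul_cancel₀ hφ, one_mul]
    · apply Subtype.ext
      change (φ D)⁻¹ * (G α).eval₂ φ x = x
      rw [key (C D * X) _ (by rw [map_mul, aeval_C, aeval_X]), eval₂_mul, eval₂_C, eval₂_X,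
        ← mul_assoc, inv_mul_cancel₀ hφ, one_mul]

/-- pure equations -/
theorem nh_pure (B : PowerBasis K F) {α : 𝓞 F} (hα : (α : F) = B.gen) {p : ℕ} {a : 𝓞 K}
    (hmin : minpoly (𝓞 K) α = X ^ p - C a) :
    ∃ D : 𝓞 K, D ≠ 0 ∧ ∀ (k : Type) [Field k] [Finite k] (φ : 𝓞 K →+* k), φ D ≠ 0 →
      Finite (Over F φ) ∧ nh F φ = rc p (φ a) := by
  obtain ⟨D, hD0, hD⟩ := over_equiv B hα
  refine ⟨D, hD0, fun k _ _ φ hφ => ?_⟩
  obtain ⟨e⟩ := hD k φ hφ
  refine ⟨Finite.of_equiv _ e.symm, ?_⟩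
  unfold nh rc
  rw [Nat.card_congr e]
  refine Nat.card_congr (Equiv.subtypeEquivRight fun x => ?_)
  rw [hmin, eval₂_sub, eval₂_C, eval₂_pow, eval₂_X, sub_eq_zero]

theorem nh_self (K : Type) [Field K] [NumberField K] {k : Type} [Field k] (φ : 𝓞 K →+* k) :
    Finite (Over K φ) ∧ nh K φ = 1 := by
  have h : ∀ ψ : Over K φ, ψ.1 = φ := by
    intro ψ
    have := ψ.2
    ext x
    have h1 := RingHom.congr_fun this x
    exact h1
  have hs : Subsingleton (Over K φ) := ⟨fun ψ ψ' => Subtype.ext (by rw [h, h])⟩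
  refine ⟨inferInstance, ?_⟩
  unfold nh
  have hne : Nonempty (Over K φ) := ⟨⟨φ, by ext x; rfl⟩⟩
  exact Nat.card_unique

/-- towers -/
theorem nh_tower {L : Type} [Field L] [NumberField L] [Algebra K L] [Algebra F L]
    [IsScalarTower K F L] {k : Type} [Field k] (φ : 𝓞 K →+* k) (hfin : Finite (Over F φ)) {c : ℕ}
    (h : ∀ ψ : Over F φ, Finite (Over L ψ.1) ∧ nh L ψ.1 = c) :
    Finite (Over L φ) ∧ nh L φ = nh F φ * c := by
  classical
  have hcomp : (algebraMap (𝓞 F) (𝓞 L)).comp (algebraMap (𝓞 K) (𝓞 F)) =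
      algebraMap (𝓞 K) (𝓞 L) := by
    refine RingHom.ext fun x => RingOfIntegers.coe_injective (K := L) ?_
    rw [RingHom.comp_apply, ← IsScalarTower.algebraMap_apply (𝓞 F) (𝓞 L) L,
      IsScalarTower.algebraMap_apply (𝓞 F) F L, ← IsScalarTower.algebraMap_apply (𝓞 K) (𝓞 F) F,
      IsScalarTower.algebraMap_apply (𝓞 K) K F, ← IsScalarTower.algebraMap_apply (𝓞 K) (𝓞 L) L,
      IsScalarTower.algebraMap_apply (𝓞 K) K L, ← IsScalarTower.algebraMap_apply K F L]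
  let e : Over L φ ≃ (ψ : Over F φ) × Over L ψ.1 :=
    { toFun := fun χ => ⟨⟨χ.1.comp (algebraMap (𝓞 F) (𝓞 L)), by
          rw [RingHom.comp_assoc, hcomp]; exact χ.2⟩, ⟨χ.1, rfl⟩⟩
      invFun := fun q => ⟨q.2.1, by rw [← hcomp, ← RingHom.comp_assoc, q.2.2, q.1.2]⟩
      left_inv := fun χ => rfl
      right_inv := by
        rintro ⟨ψ, ⟨χ, hχ⟩⟩
        have pf : (χ.comp (algebraMap (𝓞 F) (𝓞 L))).comp (algebraMap (𝓞 K) (𝓞 F)) = φ := by
          rw [hχ]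
          exact ψ.2
        obtain rfl : ψ = ⟨χ.comp (algebraMap (𝓞 F) (𝓞 L)), pf⟩ := Subtype.ext hχ.symm
        rfl }
  have hf : ∀ ψ : Over F φ, Finite (Over L ψ.1) := fun ψ => (h ψ).1
  have : Fintype (Over F φ) := Fintype.ofFinite _
  refine ⟨Finite.of_equiv _ e.symm, ?_⟩
  unfold nh
  rw [Nat.card_congr e, Nat.card_sigma]
  have h2 : ∀ ψ ∈ (Finset.univ : Finset (Over F φ)), Nat.card (Over L ψ.1) = c :=
    fun ψ _ => (h ψ).2
  rw [Finset.sum_congr rfl h2, Finset.sum_const, smul_eq_mul, Finset.card_univ,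
    Nat.card_eq_fintype_card]

/-- nonzero multiples in the smaller ring -/
theorem exists_below {D : 𝓞 F} (hD : D ≠ 0) :
    ∃ d : 𝓞 K, d ≠ 0 ∧ D ∣ algebraMap (𝓞 K) (𝓞 F) d := by
  have h1 : Ideal.comap (algebraMap (𝓞 K) (𝓞 F)) (Ideal.span {D}) ≠ ⊥ :=
    Ideal.comap_ne_bot_of_integral_mem hD (Ideal.mem_span_singleton_self D)
      (integral_over (K := K) D)
  obtain ⟨d, hd, hd0⟩ := Submodule.exists_mem_ne_zero_of_ne_bot h1
  exact ⟨d, hd0, Ideal.mem_span_singleton.1 hd⟩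

/-- compositum of two pure extensions -/
theorem nh_double {L : Type} [Field L] [NumberField L] [Algebra K L] [Algebra F L]
    [IsScalarTower K F L] (B : PowerBasis K F) {α : 𝓞 F} (hα : (α : F) = B.gen) {p : ℕ} {a : 𝓞 K}
    (hmin : minpoly (𝓞 K) α = X ^ p - C a)
    (B' : PowerBasis F L) {β : 𝓞 L} (hβ : (β : L) = B'.gen) {b : 𝓞 K}
    (hmin' : minpoly (𝓞 F) β = X ^ p - C (algebraMap (𝓞 K) (𝓞 F) b)) :
    ∃ D : 𝓞 K, D ≠ 0 ∧ ∀ (k : Type) [Field k] [Finite k] (φ : 𝓞 K →+* k), φ D ≠ 0 →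
      Finite (Over L φ) ∧ nh L φ = rc p (φ a) * rc p (φ b) := by
  obtain ⟨D1, hD1, h1⟩ := nh_pure B hα hmin
  obtain ⟨D2, hD2, h2⟩ := nh_pure B' hβ hmin'
  obtain ⟨d, hd, hdvd⟩ := exists_below (K := K) hD2
  refine ⟨D1 * d, mul_ne_zero hD1 hd, fun k _ _ φ hφ => ?_⟩
  rw [map_mul] at hφ
  obtain ⟨f1, f2⟩ := h1 k φ (left_ne_zero_of_mul hφ)
  rw [← f2]
  refine nh_tower φ f1 fun ψ => ?_
  have h3 : ψ.1 D2 ≠ 0 := by
    intro h
    obtain ⟨c, hc⟩ := hdvd
    have h4 : ψ.1 (algebraMap (𝓞 K) (𝓞 F) d) = φ d := RingHom.congr_fun ψ.2 d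
    rw [hc, map_mul, h, zero_mul] at h4
    exact right_ne_zero_of_mul hφ h4.symm
  have h4 := h2 k ψ.1 h3
  have h5 : ψ.1 (algebraMap (𝓞 K) (𝓞 F) b) = φ b := RingHom.congr_fun ψ.2 b
  rw [h5] at h4
  exact h4

end Pool.Agent.R433.MD
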