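import Pool.Agent.R433.MD.Burnside

/-! Hyperelementary subgroups. -/

set_option autoImplicit false

namespace Pool.Agent.R433.MD

/-- `p`-hyperelementary subgroups -/
def IsHyper {G : Type} [Group G] (p : ℕ) (H : Subgroup G) : Prop :=
  ∃ C : Subgroup G, C ≤ H ∧ IsCyclic C ∧ (Nat.card C).Coprime p ∧
    (∀ h ∈ H, ∀ c ∈ C, h * c * h⁻¹ ∈ C) ∧ ∀ h ∈ H, ∃ k : ℕ, h ^ p ^ k ∈ C

section
variable {G : Type} [Group G]

theorem IsHyper.le {p : ℕ} {H H' : Subgroup G} (hH : IsHyper p H) (h : H' ≤ H) :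
    IsHyper p H' := by
  obtain ⟨C, hC, hcyc, hcop, hnorm, hpow⟩ := hH
  have hle : C ⊓ H' ≤ C := inf_le_left
  refine ⟨C ⊓ H', inf_le_right, ?_, ?_, ?_, ?_⟩
  · exact isCyclic_of_injective (Subgroup.inclusion hle) (Subgroup.inclusion_injective hle)
  · exact Nat.Coprime.coprime_dvd_left (Subgroup.card_dvd_of_le hle) hcop
  · intro x hx c hc
    exact ⟨hnorm x (h hx) c hc.1, H'.mul_mem (H'.mul_mem hx hc.2) (H'.inv_mem hx)⟩
  · intro x hx
    obtain ⟨k, hk⟩ := hpow x (h hx)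
    exact ⟨k, hk, H'.pow_mem hx _⟩

theorem IsHyper.conj {p : ℕ} {H : Subgroup G} (hH : IsHyper p H) (x : G) :
    IsHyper p (H.map (MulAut.conj x).toMonoidHom) := by
  obtain ⟨C, hC, hcyc, hcop, hnorm, hpow⟩ := hH
  let e : C ≃* C.map (MulAut.conj x).toMonoidHom :=
    C.equivMapOfInjective _ (MulAut.conj x).injective
  refine ⟨C.map (MulAut.conj x).toMonoidHom, Subgroup.map_mono hC, ?_, ?_, ?_, ?_⟩
  · exact isCyclic_of_surjective e.toMonoidHom e.surjective
  · rw [← Nat.card_congr e.toEquiv]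
    exact hcop
  · rintro _ ⟨h, hh, rfl⟩ _ ⟨c, hc, rfl⟩
    refine ⟨h * c * h⁻¹, hnorm h hh c hc, ?_⟩
    rw [map_mul, map_mul, map_inv]
  · rintro _ ⟨h, hh, rfl⟩
    obtain ⟨k, hk⟩ := hpow h hh
    exact ⟨k, _, hk, map_pow _ _ _⟩

variable [Finite G]

theorem mem_norm {C : Subgroup G} {x : G} (h : ∀ c ∈ C, x * c * x⁻¹ ∈ C) :
    x ∈ Subgroup.normalizer (C : Set G) := by
  rw [Subgroup.mem_normalizer_iff_map_conj_eq]
  apply Subgroup.eq_of_le_of_card_ge
  · rintro _ ⟨c, hc, rfl⟩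
    exact h c hc
  · exact (Nat.card_congr (C.equivMapOfInjective _ (MulAut.conj x).injective).toEquiv).le

theorem hyper_count {p : ℕ} (hp : p.Prime) (g : G) :
    ∃ H : Subgroup G, IsHyper p H ∧ ¬ (p : ℤ) ∣ fx H g := by
  classical
  have : Fact p.Prime := ⟨hp⟩
  obtain ⟨a, m, hpm, hn⟩ := Nat.exists_eq_pow_mul_and_not_dvd (orderOf_pos g).ne' p hp.ne_one
  have hcopm : m.Coprime p := ((Nat.Prime.coprime_iff_not_dvd hp).2 hpm).symm
  set t := g ^ p ^ a with ht
  have htm : t ^ m = 1 := by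
    rw [ht, ← pow_mul, ← hn, pow_orderOf_eq_one]
  set C : Subgroup G := Subgroup.zpowers t with hC
  have hcardC : (Nat.card C).Coprime p := by
    rw [hC, Nat.card_zpowers]
    exact Nat.Coprime.coprime_dvd_left (orderOf_dvd_of_pow_eq_one htm) hcopm
  set N : Subgroup G := Subgroup.normalizer (C : Set G) with hN
  have hgN : g ∈ N := by
    refine mem_norm fun c hc => ?_
    obtain ⟨i, rfl⟩ := hc
    have h1 : Commute g (t ^ i) := ((Commute.refl g).pow_right _).zpow_right i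
    change g * t ^ i * g⁻¹ ∈ C
    rw [h1.mul_inv_cancel]
    exact Subgroup.zpow_mem _ (Subgroup.mem_zpowers t) i
  have hCN : C ≤ N := Subgroup.le_normalizer
  have hCn : (C.subgroupOf N).Normal := Subgroup.normal_in_normalizer
  let Q := N ⧸ C.subgroupOf N
  let π : N →* Q := QuotientGroup.mk' (C.subgroupOf N)
  have hker : ∀ x : N, π x = 1 ↔ (x : G) ∈ C := by
    intro x
    rw [← MonoidHom.mem_ker, QuotientGroup.ker_mk', Subgroup.mem_subgroupOf]
  let gb : Q := π ⟨g, hgN⟩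
  have hgb : gb ^ p ^ a = 1 := by
    rw [← map_pow, hker]
    exact Subgroup.mem_zpowers t
  have hpg : IsPGroup p (Subgroup.zpowers gb) := by
    rintro ⟨y, i, rfl⟩
    refine ⟨a, Subtype.ext ?_⟩
    change (gb ^ i) ^ p ^ a = 1
    rw [← zpow_natCast, ← zpow_mul, mul_comm, zpow_mul, zpow_natCast, hgb, one_zpow]
  obtain ⟨P, hP⟩ := hpg.exists_le_sylow
  let H : Subgroup G := ((P : Subgroup Q).comap π).map N.subtype
  have hmemH : ∀ x : G, x ∈ H ↔ ∃ hx : x ∈ N, π ⟨x, hx⟩ ∈ P := by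
    intro x
    constructor
    · rintro ⟨y, hy, rfl⟩
      exact ⟨y.2, hy⟩
    · rintro ⟨hx, h⟩
      exact ⟨⟨x, hx⟩, h, rfl⟩
  have hCH : C ≤ H := by
    intro c hc
    rw [hmemH]
    refine ⟨hCN hc, ?_⟩
    rw [(hker _).2 hc]
    exact P.one_mem
  have hHpow : ∀ h ∈ H, ∃ k : ℕ, h ^ p ^ k ∈ C := by
    intro h hh
    obtain ⟨hhN, hhP⟩ := (hmemH h).1 hh
    obtain ⟨k, hk⟩ := P.isPGroup' ⟨_, hhP⟩
    refine ⟨k, ?_⟩
    have h1 : π (⟨h, hhN⟩ ^ p ^ k) = 1 := by
      rw [map_pow]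
      exact congrArg Subtype.val hk
    exact (hker _).1 h1
  refine ⟨H, ⟨C, hCH, inferInstance, hcardC, ?_, hHpow⟩, ?_⟩
  · intro h hh c hc
    have h1 := ((hmemH h).1 hh).1
    rw [hN, Subgroup.mem_normalizer_iff] at h1
    exact (h1 c).1 hc
  -- fixed cosets lie in the normalizer
  have hfixN : ∀ x : G, g • (x : G ⧸ H) = x → x ∈ N ∧ x⁻¹ * g * x ∈ H := by
    intro x hx
    have h1 : ((g * x : G) : G ⧸ H) = x := hx
    rw [QuotientGroup.eq] at h1
    have h2 : x⁻¹ * g * x ∈ H := by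
      have e : x⁻¹ * g * x = ((g * x)⁻¹ * x)⁻¹ := by group
      rw [e]
      exact H.inv_mem h1
    refine ⟨?_, h2⟩
    -- the conjugate of `t`
    have h3 : x⁻¹ * t * x ∈ H := by
      have e : x⁻¹ * t * x = (x⁻¹ * g * x) ^ p ^ a := by
        rw [ht]
        have := conj_pow (a := x⁻¹) (b := g) (i := p ^ a)
        rw [inv_inv] at this
        exact this.symm
      rw [e]
      exact H.pow_mem h2 _
    obtain ⟨k, hk⟩ := hHpow _ h3
    have h4 : (x⁻¹ * t * x) ^ m = 1 := by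
      have := conj_pow (a := x⁻¹) (b := t) (i := m)
      rw [inv_inv] at this
      rw [this, htm, mul_one, inv_mul_cancel]
    have h5 : x⁻¹ * t * x ∈ C := by
      have hcop : (p ^ k).Coprime m := Nat.Coprime.pow_left k hcopm.symm
      have h6 := Nat.gcd_eq_gcd_ab (p ^ k) m
      rw [hcop] at h6
      have h7 : (x⁻¹ * t * x) = ((x⁻¹ * t * x) ^ p ^ k) ^ (Nat.gcdA (p ^ k) m) := by
        conv_lhs => rw [← zpow_one (x⁻¹ * t * x)]
        have e : (1 : ℤ) = (p ^ k : ℕ) * Nat.gcdA (p ^ k) m + m * Nat.gcdB (p ^ k) m := by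
          rw [← h6]
          rfl
        rw [e, zpow_add, zpow_mul, zpow_mul, zpow_natCast, zpow_natCast, h4, one_zpow, mul_one]
      rw [h7]
      exact C.zpow_mem hk _
    have h8 : x⁻¹ ∈ N := by
      refine mem_norm fun c hc => ?_
      obtain ⟨i, rfl⟩ := hc
      change x⁻¹ * t ^ i * x⁻¹⁻¹ ∈ C
      rw [← conj_zpow, inv_inv]
      exact C.zpow_mem h5 i
    have h9 := N.inv_mem h8
    rw [inv_inv] at h9
    exact h9
  -- the fixed points on `Q / P`
  have hcount : Nat.card {c : G ⧸ H // g • c = c} =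
      Nat.card (MulAction.fixedPoints (Subgroup.zpowers gb) (Q ⧸ (P : Subgroup Q))) := by
    have hfixQ : ∀ c : Q ⧸ (P : Subgroup Q),
        c ∈ MulAction.fixedPoints (Subgroup.zpowers gb) (Q ⧸ (P : Subgroup Q)) ↔ gb • c = c := by
      intro c
      constructor
      · intro h
        exact h ⟨gb, Subgroup.mem_zpowers gb⟩
      · intro h
        have h1 : Subgroup.zpowers gb ≤ MulAction.stabilizer Q c := by
          rw [Subgroup.zpowers_le]
          exact h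
        rintro ⟨y, hy⟩
        exact h1 hy
    have hrep : ∀ c : {c : G ⧸ H // g • c = c}, ∃ x : N, ((x : G) : G ⧸ H) = c.1 := by
      rintro ⟨c, hc⟩
      obtain ⟨x, rfl⟩ := QuotientGroup.mk_surjective c
      exact ⟨⟨x, (hfixN x hc).1⟩, rfl⟩
    choose s hs using hrep
    have heq : ∀ x y : N, ((x : G) : G ⧸ H) = ((y : G) : G ⧸ H) ↔
        (π x : Q ⧸ (P : Subgroup Q)) = π y := by
      intro x y
      rw [QuotientGroup.eq, QuotientGroup.eq, hmemH, ← map_inv, ← map_mul]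
      constructor
      · rintro ⟨h1, h2⟩
        exact h2
      · intro h
        exact ⟨N.mul_mem (N.inv_mem x.2) y.2, h⟩
    have hact : ∀ x : N, g • ((x : G) : G ⧸ H) = ((x : G) : G ⧸ H) ↔
        gb • (π x : Q ⧸ (P : Subgroup Q)) = π x := by
      intro x
      have h1 := heq (⟨g, hgN⟩ * x) x
      rw [map_mul] at h1
      exact h1
    refine Nat.card_congr (Equiv.ofBijective (fun c => ⟨(π (s c) : Q ⧸ (P : Subgroup Q)), ?_⟩)
      ⟨?_, ?_⟩)
    · rw [hfixQ, ← hact, hs]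
      exact c.2
    · intro c c' h
      have h1 : (π (s c) : Q ⧸ (P : Subgroup Q)) = π (s c') := congrArg Subtype.val h
      rw [← heq, hs, hs] at h1
      exact Subtype.ext h1
    · rintro ⟨d, hd⟩
      obtain ⟨q, rfl⟩ := QuotientGroup.mk_surjective d
      obtain ⟨x, rfl⟩ := QuotientGroup.mk'_surjective (C.subgroupOf N) q
      rw [hfixQ] at hd
      have h1 : g • ((x : G) : G ⧸ H) = ((x : G) : G ⧸ H) := (hact x).2 hd
      refine ⟨⟨_, h1⟩, Subtype.ext ?_⟩
      exact (heq _ _).1 (hs ⟨_, h1⟩)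
  intro hdvd
  rw [fx, hcount] at hdvd
  have h1 : p ∣ Nat.card (MulAction.fixedPoints (Subgroup.zpowers gb) (Q ⧸ (P : Subgroup Q))) :=
    Int.natCast_dvd_natCast.1 hdvd
  have h2 := IsPGroup.card_modEq_card_fixedPoints (G := Subgroup.zpowers gb) hpg
    (Q ⧸ (P : Subgroup Q))
  have h3 : p ∣ Nat.card (Q ⧸ (P : Subgroup Q)) := (h2.dvd_iff dvd_rfl).2 h1
  have h4 := P.not_dvd_index
  exact h4 h3

end

end Pool.Agent.R433.MD
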